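import Mathlib

open Filter Topology

namespace Pool.Agent.Helper28.Euler

/-- bounded real function -/
def Bdd {X : Type*} (φ : X → ℝ) : Prop := ∃ C : ℝ, ∀ x, |φ x| ≤ C

theorem Bdd.comp {X Y : Type*} {φ : X → ℝ} (h : Bdd φ) (f : Y → X) : Bdd (fun y => φ (f y)) := by
  obtain ⟨C, hC⟩ := h
  exact ⟨C, fun y => hC _⟩

theorem Bdd.add {X : Type*} {φ ψ : X → ℝ} (h : Bdd φ) (h' : Bdd ψ) : Bdd (fun y => φ y + ψ y) := by
  obtain ⟨C, hC⟩ := h
  obtain ⟨D, hD⟩ := h'
  exact ⟨C + D, fun y => (abs_add_le _ _).trans (add_le_add (hC y) (hD y))⟩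

theorem Bdd.smul {X : Type*} {φ : X → ℝ} (c : ℝ) (h : Bdd φ) : Bdd (fun y => c * φ y) := by
  obtain ⟨C, hC⟩ := h
  exact ⟨|c| * C, fun y => by rw [abs_mul]; exact mul_le_mul_of_nonneg_left (hC y) (abs_nonneg _)⟩

theorem Bdd.const {X : Type*} (c : ℝ) : Bdd (fun _ : X => c) := ⟨|c|, fun _ => le_rfl⟩

/-- `m` is a left `H`-invariant mean on the bounded functions on `P` that only looks at
values on `H`. -/
structure IsMeanOn {P : Type*} [Group P] (H : Subgroup P) (m : (P → ℝ) → ℝ) : Prop where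
  add : ∀ φ ψ : P → ℝ, Bdd φ → Bdd ψ → m (fun x => φ x + ψ x) = m φ + m ψ
  smul : ∀ (c : ℝ) (φ : P → ℝ), Bdd φ → m (fun x => c * φ x) = c * m φ
  nonneg : ∀ φ : P → ℝ, Bdd φ → (∀ x, 0 ≤ φ x) → 0 ≤ m φ
  one : m (fun _ => 1) = 1
  inv : ∀ g ∈ H, ∀ φ : P → ℝ, Bdd φ → m (fun x => φ (g * x)) = m φ
  supp : ∀ φ ψ : P → ℝ, (∀ x ∈ H, φ x = ψ x) → m φ = m ψ

/-- amenability of a subgroup (via an invariant mean) -/
def Am {P : Type*} [Group P] (H : Subgroup P) : Prop := ∃ m, IsMeanOn H m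

variable {P : Type*} [Group P]

theorem IsMeanOn.neg {H : Subgroup P} {m} (h : IsMeanOn H m) (φ : P → ℝ) (hφ : Bdd φ) :
    m (fun x => - φ x) = - m φ := by
  have := h.smul (-1) φ hφ
  simpa using this

theorem IsMeanOn.mono {H : Subgroup P} {m} (h : IsMeanOn H m) (φ ψ : P → ℝ) (hφ : Bdd φ)
    (hψ : Bdd ψ) (hle : ∀ x, φ x ≤ ψ x) : m φ ≤ m ψ := by
  have h1 : Bdd (fun x => - φ x) := by simpa using hφ.smul (-1)
  have h2 := h.nonneg (fun x => ψ x + - φ x) (hψ.add h1) (fun x => by linarith [hle x])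
  rw [h.add ψ _ hψ h1, h.neg φ hφ] at h2
  linarith

theorem IsMeanOn.const {H : Subgroup P} {m} (h : IsMeanOn H m) (c : ℝ) :
    m (fun _ => c) = c := by
  have := h.smul c (fun _ => 1) (Bdd.const 1)
  simpa [h.one] using this

theorem IsMeanOn.abs_le {H : Subgroup P} {m} (h : IsMeanOn H m) (φ : P → ℝ) (C : ℝ)
    (hC : ∀ x, |φ x| ≤ C) : |m φ| ≤ C := by
  have hb : Bdd φ := ⟨C, hC⟩
  rw [_root_.abs_le]
  constructor
  · have := h.mono (fun _ => -C) φ (Bdd.const _) hb (fun x => (_root_.abs_le.1 (hC x)).1)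
    rwa [h.const] at this
  · have := h.mono φ (fun _ => C) hb (Bdd.const _) (fun x => (_root_.abs_le.1 (hC x)).2)
    rwa [h.const] at this

/-- the set of `g` under which a functional is invariant is a subgroup -/
theorem inv_closure {m : (P → ℝ) → ℝ} {S : Set P}
    (hS : ∀ g ∈ S, ∀ φ : P → ℝ, Bdd φ → m (fun x => φ (g * x)) = m φ) :
    ∀ g ∈ Subgroup.closure S, ∀ φ : P → ℝ, Bdd φ → m (fun x => φ (g * x)) = m φ := by
  intro g hg
  induction hg using Subgroup.closure_induction with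
  | mem x hx => exact hS x hx
  | one => intro φ _; simp
  | mul x y _ _ hx hy =>
    intro φ hφ
    have h1 := hy (fun z => φ (x * z)) (hφ.comp _)
    have h2 := hx φ hφ
    rw [← h2, ← h1]
    simp only [mul_assoc]
  | inv x _ hx =>
    intro φ hφ
    have h1 := hx (fun z => φ (x⁻¹ * z)) (hφ.comp _)
    rw [← h1]
    simp

/-- If `A` normalizes `B` and both are amenable, so is `A ⊔ B`. -/
theorem Am.sup {A B : Subgroup P} (hA : Am A) (hB : Am B)
    (hn : ∀ a ∈ A, ∀ b ∈ B, a⁻¹ * b * a ∈ B) : Am (A ⊔ B) := by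
  obtain ⟨mA, hA⟩ := hA
  obtain ⟨mB, hB⟩ := hB
  have key : ∀ φ : P → ℝ, Bdd φ → Bdd (fun a => mB (fun b => φ (a * b))) := by
    rintro φ ⟨C, hC⟩
    exact ⟨C, fun a => hB.abs_le _ C (fun b => hC _)⟩
  refine ⟨fun φ => mA (fun a => mB (fun b => φ (a * b))), ?_, ?_, ?_, ?_, ?_, ?_⟩
  · intro φ ψ hφ hψ
    have : (fun a => mB (fun b => φ (a * b) + ψ (a * b)))
        = fun a => mB (fun b => φ (a * b)) + mB (fun b => ψ (a * b)) := by
      funext a
      exact hB.add _ _ (hφ.comp _) (hψ.comp _)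
    rw [this]
    exact hA.add _ _ (key φ hφ) (key ψ hψ)
  · intro c φ hφ
    have : (fun a => mB (fun b => c * φ (a * b))) = fun a => c * mB (fun b => φ (a * b)) := by
      funext a
      exact hB.smul _ _ (hφ.comp _)
    rw [this]
    exact hA.smul _ _ (key φ hφ)
  · intro φ hφ h0
    exact hA.nonneg _ (key φ hφ) (fun a => hB.nonneg _ (hφ.comp _) (fun b => h0 _))
  · simp only [hB.one, hA.one]
  · have : (A ⊔ B : Subgroup P) = Subgroup.closure ((A : Set P) ∪ B) := by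
      rw [Subgroup.closure_union, Subgroup.closure_eq, Subgroup.closure_eq]
    rw [this]
    refine inv_closure (m := fun φ => mA (fun a => mB (fun b => φ (a * b)))) ?_
    rintro g (hg | hg) φ hφ
    · have := hA.inv g hg (fun a => mB (fun b => φ (a * b))) (key φ hφ)
      rw [← this]
      simp only [mul_assoc]
    · apply hA.supp
      intro a ha
      have := hB.inv (a⁻¹ * g * a) (hn a ha g hg) (fun b => φ (a * b)) (hφ.comp _)
      rw [← this]
      congr 1
      funext b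
      congr 1
      group
  · intro φ ψ h
    apply hA.supp
    intro a ha
    apply hB.supp
    intro b hb
    exact h _ (Subgroup.mul_mem_sup ha hb)

section ulim

variable {ι : Type*}

theorem tendsto_ulim (U : Ultrafilter ι) (f : ι → ℝ) (C : ℝ) (hC : ∀ i, |f i| ≤ C) :
    Tendsto f U (𝓝 (limUnder (U : Filter ι) f)) := by
  have h1 : ((U.map f : Ultrafilter ℝ) : Filter ℝ) ≤ 𝓟 (Set.Icc (-C) C) := by
    rw [Filter.le_principal_iff]
    show f ⁻¹' (Set.Icc (-C) C) ∈ U
    have : f ⁻¹' (Set.Icc (-C) C) = Set.univ := by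
      ext i
      simp only [Set.mem_preimage, Set.mem_Icc, Set.mem_univ, iff_true]
      exact _root_.abs_le.1 (hC i)
    rw [this]
    exact Filter.univ_mem
  obtain ⟨x, _, hx⟩ := isCompact_Icc.ultrafilter_le_nhds (U.map f) h1
  have h2 : Tendsto f U (𝓝 x) := hx
  rwa [h2.limUnder_eq]

end ulim

/-- limit of means along an ultrafilter -/
theorem am_of_limit {ι : Type*} (U : Ultrafilter ι) (H : Subgroup P) (M : ι → (P → ℝ) → ℝ)
    (S : Set P) (hS : Subgroup.closure S = H)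
    (hadd : ∀ i (φ ψ : P → ℝ), Bdd φ → Bdd ψ → M i (fun x => φ x + ψ x) = M i φ + M i ψ)
    (hsmul : ∀ i (c : ℝ) (φ : P → ℝ), Bdd φ → M i (fun x => c * φ x) = c * M i φ)
    (hnonneg : ∀ i (φ : P → ℝ), Bdd φ → (∀ x, 0 ≤ φ x) → 0 ≤ M i φ)
    (hone : ∀ i, M i (fun _ => 1) = 1)
    (hbd : ∀ i (φ : P → ℝ) (C : ℝ), (∀ x, |φ x| ≤ C) → |M i φ| ≤ C)
    (hsupp : ∀ i (φ ψ : P → ℝ), (∀ x ∈ H, φ x = ψ x) → M i φ = M i ψ)
    (hinv : ∀ g ∈ S, ∀ φ : P → ℝ, Bdd φ →
      Tendsto (fun i => M i (fun x => φ (g * x)) - M i φ) U (𝓝 0)) : Am H := by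
  have hT : ∀ φ : P → ℝ, Bdd φ →
      Tendsto (fun i => M i φ) U (𝓝 (limUnder (U : Filter ι) (fun i => M i φ))) := by
    rintro φ ⟨C, hC⟩
    exact tendsto_ulim U _ C (fun i => hbd i φ C hC)
  refine ⟨fun φ => limUnder (U : Filter ι) (fun i => M i φ), ?_, ?_, ?_, ?_, ?_, ?_⟩
  · intro φ ψ hφ hψ
    have h1 := (hT φ hφ).add (hT ψ hψ)
    have h2 := hT _ (hφ.add hψ)
    refine tendsto_nhds_unique h2 (h1.congr (fun i => ?_))
    rw [hadd i φ ψ hφ hψ]
  · intro c φ hφ
    have h1 := (hT φ hφ).const_mul c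
    have h2 := hT _ (hφ.smul c)
    refine tendsto_nhds_unique h2 (h1.congr (fun i => ?_))
    rw [hsmul i c φ hφ]
  · intro φ hφ h0
    exact ge_of_tendsto' (hT φ hφ) (fun i => hnonneg i φ hφ h0)
  · refine tendsto_nhds_unique (hT _ (Bdd.const 1)) ?_
    simp only [hone]
    exact tendsto_const_nhds
  · rw [← hS]
    refine inv_closure (m := fun φ => limUnder (U : Filter ι) (fun i => M i φ)) ?_
    intro g hg φ hφ
    have h1 := hT _ (hφ.comp (fun x => g * x))
    have h2 := hT φ hφ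
    have h3 := h1.sub h2
    have h4 := tendsto_nhds_unique h3 (hinv g hg φ hφ)
    linarith
  · intro φ ψ h
    have : (fun i => M i φ) = fun i => M i ψ := by
      funext i
      exact hsupp i φ ψ h
    rw [this]

/-- monotone unions of amenable subgroups are amenable -/
theorem Am.iSup {ι : Type*} [Preorder ι] [IsDirectedOrder ι] [Nonempty ι] (H : ι → Subgroup P)
    (hmono : Monotone H) (hH : ∀ i, Am (H i)) : Am (⨆ i, H i) := by
  choose m hm using hH
  let U : Ultrafilter ι := Ultrafilter.of atTop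
  have hU : (U : Filter ι) ≤ atTop := Ultrafilter.of_le _
  have hmem : ∀ x, x ∈ (⨆ i, H i) ↔ ∃ i, x ∈ H i := fun x =>
    Subgroup.mem_iSup_of_directed hmono.directed_le
  refine am_of_limit U _ m ((⨆ i, H i : Subgroup P) : Set P) (Subgroup.closure_eq _)
    (fun i => (hm i).add) (fun i => (hm i).smul) (fun i => (hm i).nonneg) (fun i => (hm i).one)
    (fun i φ C hC => (hm i).abs_le φ C hC) ?_ ?_
  · intro i φ ψ h
    exact (hm i).supp φ ψ (fun x hx => h x ((hmem x).2 ⟨i, hx⟩))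
  · intro g hg φ hφ
    obtain ⟨i0, hi0⟩ := (hmem g).1 hg
    have : ∀ᶠ i in (U : Filter ι), m i (fun x => φ (g * x)) - m i φ = 0 := by
      apply hU
      filter_upwards [eventually_ge_atTop i0] with i hi
      rw [(hm i).inv g (hmono hi hi0) φ hφ, sub_self]
    exact (tendsto_congr' this).2 tendsto_const_nhds

/-- cyclic groups are amenable -/
theorem Am.zpowers (g : P) : Am (Subgroup.zpowers g) := by
  let U : Ultrafilter ℕ := Ultrafilter.of atTop
  have hU : (U : Filter ℕ) ≤ atTop := Ultrafilter.of_le _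
  have hpos : ∀ n : ℕ, (0 : ℝ) < (n : ℝ) + 1 := fun n => by positivity
  have hbd : ∀ (n : ℕ) (φ : P → ℝ) (C : ℝ), (∀ x, |φ x| ≤ C) →
      |(∑ j ∈ Finset.range (n + 1), φ (g ^ j)) / ((n : ℝ) + 1)| ≤ C := by
    intro n φ C hC
    rw [abs_div, abs_of_pos (hpos n), div_le_iff₀ (hpos n)]
    calc |∑ j ∈ Finset.range (n + 1), φ (g ^ j)| ≤ ∑ j ∈ Finset.range (n + 1), |φ (g ^ j)| :=
          Finset.abs_sum_le_sum_abs _ _
      _ ≤ ∑ _j ∈ Finset.range (n + 1), C := Finset.sum_le_sum (fun j _ => hC _)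
      _ = C * ((n : ℝ) + 1) := by
          rw [Finset.sum_const, Finset.card_range, nsmul_eq_mul]
          push_cast
          ring
  refine am_of_limit U _ (fun n φ => (∑ j ∈ Finset.range (n + 1), φ (g ^ j)) / ((n : ℝ) + 1))
    {g} (Subgroup.zpowers_eq_closure g).symm ?_ ?_ ?_ ?_ hbd ?_ ?_
  · intro n φ ψ _ _
    simp only [Finset.sum_add_distrib, add_div]
  · intro n c φ _
    simp only [← Finset.mul_sum, mul_div_assoc]
  · intro n φ _ h0
    exact div_nonneg (Finset.sum_nonneg (fun j _ => h0 _)) (hpos n).le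
  · intro n
    simp only [Finset.sum_const, Finset.card_range, nsmul_eq_mul, mul_one]
    push_cast
    exact div_self (hpos n).ne'
  · intro n φ ψ h
    rw [Finset.sum_congr rfl (fun j _ => h _ (Subgroup.npow_mem_zpowers g j))]
  · rintro h rfl φ ⟨C, hC⟩
    have hlim : Tendsto (fun n : ℕ => (2 * C) / ((n : ℝ) + 1)) atTop (𝓝 0) := by
      have := tendsto_one_div_add_atTop_nhds_zero_nat (𝕜 := ℝ)
      have h2 := this.const_mul (2 * C)
      rw [mul_zero] at h2
      refine h2.congr (fun n => ?_)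
      rw [mul_one_div]
    refine squeeze_zero_norm (fun n => ?_) (hlim.mono_left hU)
    rw [Real.norm_eq_abs, ← sub_div, abs_div, abs_of_pos (hpos n)]
    apply div_le_div_of_nonneg_right _ (hpos n).le
    have h1 : (∑ j ∈ Finset.range (n + 1), φ (h * h ^ j)) - ∑ j ∈ Finset.range (n + 1), φ (h ^ j)
        = φ (h ^ (n + 1)) - φ 1 := by
      have h2 : ∀ j, h * h ^ j = h ^ (j + 1) := fun j => (pow_succ' h j).symm
      simp only [h2]
      rw [← Finset.sum_sub_distrib, Finset.sum_range_sub (fun j => φ (h ^ j))]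
      simp
    rw [h1]
    calc |φ (h ^ (n + 1)) - φ 1| ≤ |φ (h ^ (n + 1))| + |φ 1| := abs_sub _ _
      _ ≤ C + C := add_le_add (hC _) (hC _)
      _ = 2 * C := by ring

theorem Am.bot : Am (⊥ : Subgroup P) := by
  have := Am.zpowers (1 : P)
  rwa [Subgroup.zpowers_one_eq_bot] at this

/-- a family of pairwise commuting amenable subgroups generates an amenable subgroup -/
theorem Am.iSup_commute {ι : Type*} (H : ι → Subgroup P) (hH : ∀ i, Am (H i))
    (hc : ∀ i j, i ≠ j → ∀ x ∈ H i, ∀ y ∈ H j, x * y = y * x) : Am (⨆ i, H i) := by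
  classical
  have hfin : ∀ s : Finset ι, Am (⨆ i ∈ s, H i) := by
    intro s
    induction s using Finset.induction_on with
    | empty => simpa using Am.bot
    | insert a s ha ih =>
      rw [Finset.iSup_insert]
      refine (hH a).sup ih ?_
      intro x hx y hy
      have hcomm : ∀ y ∈ (⨆ i ∈ s, H i), x * y = y * x := by
        have hle : (⨆ i ∈ s, H i) ≤ Subgroup.centralizer {x} := by
          refine iSup₂_le (fun i hi y hy => ?_)
          rw [Subgroup.mem_centralizer_singleton_iff]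
          exact (hc a i (fun h => ha (h ▸ hi)) x hx y hy).symm
        intro y hy
        have := hle hy
        rw [Subgroup.mem_centralizer_singleton_iff] at this
        exact this.symm
      have : x⁻¹ * y * x = y := by
        rw [mul_assoc, ← hcomm y hy]
        group
      rwa [this]
  have : (⨆ i, H i) = ⨆ s : Finset ι, ⨆ i ∈ s, H i := by
    apply le_antisymm
    · refine iSup_le (fun i => ?_)
      refine le_trans ?_ (le_iSup _ ({i} : Finset ι))
      simp
    · exact iSup_le (fun s => iSup₂_le (fun i _ => le_iSup _ i))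
  rw [this]
  refine Am.iSup _ ?_ hfin
  intro s t hst
  exact iSup₂_le (fun i hi => le_iSup₂_of_le i (hst hi) le_rfl)

/-- commutative subgroups are amenable -/
theorem Am.of_commute (H : Subgroup P) (hc : ∀ x ∈ H, ∀ y ∈ H, x * y = y * x) : Am H := by
  have : H = ⨆ x : H, Subgroup.zpowers (x : P) := by
    apply le_antisymm
    · intro x hx
      exact (le_iSup (fun x : H => Subgroup.zpowers (x : P)) ⟨x, hx⟩) (Subgroup.mem_zpowers x)
    · exact iSup_le (fun x => by
        rw [Subgroup.zpowers_le]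
        exact x.2)
  rw [this]
  refine Am.iSup_commute _ (fun x => Am.zpowers _) ?_
  intro x y _ a ha b hb
  have h1 : Subgroup.zpowers (x : P) ≤ H := by
    rw [Subgroup.zpowers_le]; exact x.2
  have h2 : Subgroup.zpowers (y : P) ≤ H := by
    rw [Subgroup.zpowers_le]; exact y.2
  exact hc a (h1 ha) b (h2 hb)

/-- conjugates of amenable subgroups are amenable -/
theorem Am.conj {H : Subgroup P} (hH : Am H) (t : P) :
    Am (H.map (MulAut.conj t).toMonoidHom) := by
  obtain ⟨m, hm⟩ := hH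
  refine ⟨fun φ => m (fun x => φ (t * x * t⁻¹)), ?_, ?_, ?_, ?_, ?_, ?_⟩
  · intro φ ψ hφ hψ
    exact hm.add _ _ (hφ.comp _) (hψ.comp _)
  · intro c φ hφ
    exact hm.smul _ _ (hφ.comp _)
  · intro φ hφ h0
    exact hm.nonneg _ (hφ.comp _) (fun x => h0 _)
  · exact hm.one
  · rintro g ⟨h, hh, rfl⟩ φ hφ
    have := hm.inv h hh (fun x => φ (t * x * t⁻¹)) (hφ.comp _)
    rw [← this]
    congr 1
    funext x
    simp [mul_assoc]
  · intro φ ψ h
    apply hm.supp
    intro x hx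
    exact h _ ⟨x, hx, rfl⟩

/-- displacement: if the conjugates of `H` by nonzero powers of `t` commute with `H`, then
`zpowers t ⊔ H` is amenable -/
theorem Am.displace {H : Subgroup P} (hH : Am H) (t : P)
    (hc : ∀ j : ℤ, j ≠ 0 → ∀ x ∈ H, ∀ y ∈ H, (t ^ j * x * (t ^ j)⁻¹) * y = y * (t ^ j * x * (t ^ j)⁻¹)) :
    Am (Subgroup.zpowers t ⊔ H) := by
  let N : Subgroup P := ⨆ j : ℤ, H.map (MulAut.conj (t ^ j)).toMonoidHom
  have hN : Am N := by
    refine Am.iSup_commute _ (fun j => hH.conj _) ?_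
    rintro i j hij _ ⟨x, hx, rfl⟩ _ ⟨y, hy, rfl⟩
    have := hc (i - j) (sub_ne_zero.2 hij) x hx y hy
    simp only [MulEquiv.toMonoidHom_eq_coe, MonoidHom.coe_coe, MulAut.conj_apply]
    have h2 : t ^ j * ((t ^ (i - j) * x * (t ^ (i - j))⁻¹) * y) * (t ^ j)⁻¹
        = t ^ j * (y * (t ^ (i - j) * x * (t ^ (i - j))⁻¹)) * (t ^ j)⁻¹ := by rw [this]
    have h3 : t ^ (i - j) = (t ^ j)⁻¹ * t ^ i := by
      rw [← zpow_neg, ← zpow_add]
      congr 1
      ring
    rw [h3] at h2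
    simp only [mul_inv_rev, inv_inv, mul_assoc] at h2 ⊢
    simpa [mul_assoc] using h2
  have hHN : H ≤ N := by
    intro x hx
    refine (le_iSup (fun j : ℤ => H.map (MulAut.conj (t ^ j)).toMonoidHom) 0) ⟨x, hx, ?_⟩
    simp
  have htN : ∀ a ∈ Subgroup.zpowers t, ∀ b ∈ N, a⁻¹ * b * a ∈ N := by
    rintro _ ⟨l, rfl⟩ b hb
    have hle : N ≤ N.comap (MulAut.conj ((t ^ l)⁻¹)).toMonoidHom := by
      refine iSup_le (fun j => ?_)
      rintro _ ⟨x, hx, rfl⟩
      rw [Subgroup.mem_comap]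
      refine (le_iSup (fun j : ℤ => H.map (MulAut.conj (t ^ j)).toMonoidHom) (j - l)) ⟨x, hx, ?_⟩
      simp only [MulEquiv.toMonoidHom_eq_coe, MonoidHom.coe_coe, MulAut.conj_apply]
      have h3 : t ^ (j - l) = (t ^ l)⁻¹ * t ^ j := by
        rw [← zpow_neg, ← zpow_add]
        congr 1
        ring
      rw [h3]
      simp [mul_assoc]
    have := hle hb
    rw [Subgroup.mem_comap, MulEquiv.toMonoidHom_eq_coe, MonoidHom.coe_coe, MulAut.conj_apply,
      inv_inv] at this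
    exact this
  have h1 := (Am.zpowers t).sup hN htN
  have h2 : Subgroup.zpowers t ⊔ H = Subgroup.zpowers t ⊔ N := by
    apply le_antisymm
    · exact sup_le_sup_left hHN _
    · refine sup_le le_sup_left (iSup_le (fun j => ?_))
      rintro _ ⟨x, hx, rfl⟩
      simp only [MulEquiv.toMonoidHom_eq_coe, MonoidHom.coe_coe, MulAut.conj_apply]
      have hm : ∀ i : ℤ, t ^ i ∈ Subgroup.zpowers t ⊔ H := fun i =>
        (le_sup_left : Subgroup.zpowers t ≤ _) ⟨i, rfl⟩
      exact Subgroup.mul_mem _ (Subgroup.mul_mem _ (hm j) ((le_sup_right : H ≤ _) hx))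
        (Subgroup.inv_mem _ (hm j))
  rw [h2]
  exact h1

/-- the finitely additive invariant probability measure of an amenable subgroup -/
theorem Am.measure {H : Subgroup P} (hH : Am H) :
    ∃ μ : Set H → ℝ, (∀ S, 0 ≤ μ S) ∧ μ Set.univ = 1 ∧
      (∀ S T, Disjoint S T → μ (S ∪ T) = μ S + μ T) ∧
      ∀ (g : H) (S : Set H), μ ((fun x => g * x) '' S) = μ S := by
  classical
  obtain ⟨m, hm⟩ := hH
  let ind : Set H → P → ℝ := fun S x => if ∃ h : x ∈ H, (⟨x, h⟩ : H) ∈ S then 1 else 0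
  have hb : ∀ S, Bdd (ind S) := fun S => ⟨1, fun x => by
    simp only [ind]
    split_ifs <;> simp⟩
  refine ⟨fun S => m (ind S), ?_, ?_, ?_, ?_⟩
  · intro S
    refine hm.nonneg _ (hb S) (fun x => ?_)
    simp only [ind]
    split_ifs <;> simp
  · rw [← hm.one]
    apply hm.supp
    intro x hx
    simp only [ind]
    rw [if_pos ⟨hx, Set.mem_univ _⟩]
  · intro S T hST
    rw [← hm.add _ _ (hb S) (hb T)]
    apply hm.supp
    intro x hx
    simp only [ind]
    by_cases h1 : (⟨x, hx⟩ : H) ∈ S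
    · have h2 : (⟨x, hx⟩ : H) ∉ T := fun h => Set.disjoint_left.1 hST h1 h
      rw [if_pos ⟨hx, Or.inl h1⟩, if_pos ⟨hx, h1⟩, if_neg (fun ⟨_, h⟩ => h2 h)]
      simp
    · by_cases h2 : (⟨x, hx⟩ : H) ∈ T
      · rw [if_pos ⟨hx, Or.inr h2⟩, if_neg (fun ⟨_, h⟩ => h1 h), if_pos ⟨hx, h2⟩]
        simp
      · rw [if_neg (fun ⟨_, h⟩ => h.elim h1 h2), if_neg (fun ⟨_, h⟩ => h1 h),
          if_neg (fun ⟨_, h⟩ => h2 h)]
        simp
  · intro g S
    have h1 := hm.inv (g : P)⁻¹ (H.inv_mem g.2) (ind S) (hb S)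
    show m (ind ((fun x => g * x) '' S)) = m (ind S)
    rw [← h1]
    apply hm.supp
    intro x hx
    simp only [ind]
    have : (∃ h : x ∈ H, (⟨x, h⟩ : H) ∈ (fun x => g * x) '' S) ↔
        ∃ h : (g : P)⁻¹ * x ∈ H, (⟨(g : P)⁻¹ * x, h⟩ : H) ∈ S := by
      constructor
      · rintro ⟨_, ⟨y, hy, hxy⟩⟩
        have h3 : x = g * y := (congrArg Subtype.val hxy).symm
        refine ⟨H.mul_mem (H.inv_mem g.2) hx, ?_⟩
        have h4 : (⟨(g : P)⁻¹ * x, H.mul_mem (H.inv_mem g.2) hx⟩ : H) = y := by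
          apply Subtype.ext
          simp [h3]
        rwa [h4]
      · rintro ⟨h, hS⟩
        refine ⟨hx, ⟨⟨(g : P)⁻¹ * x, h⟩, hS, ?_⟩⟩
        apply Subtype.ext
        simp
    by_cases h5 : ∃ h : x ∈ H, (⟨x, h⟩ : H) ∈ (fun x => g * x) '' S
    · rw [if_pos h5, if_pos (this.1 h5)]
    · rw [if_neg h5, if_neg (fun h => h5 (this.2 h))]

end Pool.Agent.Helper28.Euler
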