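import Mathlib

open Filter Topology Set

namespace Pool.Agent.Helper28.Euler

/-- `A` is a continuous choice of the angle (in full turns) from `x - y` to `h x - h y`. -/
def IsAngle (h : ℂ → ℂ) (A : ℂ × ℂ → ℝ) : Prop :=
  ContinuousOn A {p : ℂ × ℂ | p.1 ≠ p.2} ∧
    ∀ x y : ℂ, x ≠ y →
      (h x - h y) / ((‖h x - h y‖ : ℝ) : ℂ) =
        Complex.exp (2 * Real.pi * Complex.I * (A (x, y) : ℂ)) * ((x - y) / ((‖x - y‖ : ℝ) : ℂ))

theorem isPreconnected_pairs : IsPreconnected {p : ℂ × ℂ | p.1 ≠ p.2} := by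
  have h1 : IsPreconnected ((univ : Set ℂ) ×ˢ ({0}ᶜ : Set ℂ)) :=
    isPreconnected_univ.prod
      (isConnected_compl_singleton_of_one_lt_rank (by simp) 0).isPreconnected
  have h2 : {p : ℂ × ℂ | p.1 ≠ p.2}
      = (fun q : ℂ × ℂ => (q.1, q.1 - q.2)) '' ((univ : Set ℂ) ×ˢ ({0}ᶜ : Set ℂ)) := by
    ext ⟨x, y⟩
    simp only [mem_ofPred_eq, mem_image, mem_prod, mem_univ, true_and, mem_compl_iff,
      mem_singleton_iff, Prod.mk.injEq, Prod.exists]
    constructor
    · intro h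
      exact ⟨x, x - y, sub_ne_zero.2 h, rfl, by ring⟩
    · rintro ⟨a, b, hb, rfl, rfl⟩ h
      apply hb
      linear_combination h
  rw [h2]
  apply h1.image
  fun_prop

theorem IsAngle.id : IsAngle (fun z => z) (fun _ => 0) := by
  refine ⟨continuousOn_const, fun x y _ => ?_⟩
  simp

theorem IsAngle.congr {h h' : ℂ → ℂ} {A : ℂ × ℂ → ℝ} (hA : IsAngle h A) (e : ∀ z, h z = h' z) :
    IsAngle h' A := by
  have : h = h' := funext e
  rwa [← this]

theorem IsAngle.comp {g h : ℂ → ℂ} {A B : ℂ × ℂ → ℝ} (hg : IsAngle g B) (hh : IsAngle h A)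
    (hc : Continuous h) (hi : Function.Injective h) :
    IsAngle (fun z => g (h z)) (fun p => B (h p.1, h p.2) + A p) := by
  refine ⟨?_, fun x y hxy => ?_⟩
  · refine ContinuousOn.add ?_ hh.1
    have h1 : ContinuousOn (fun p : ℂ × ℂ => (h p.1, h p.2)) {p : ℂ × ℂ | p.1 ≠ p.2} := by
      fun_prop
    exact hg.1.comp h1 (fun p hp => fun e => hp (hi e))
  · rw [hg.2 (h x) (h y) (fun e => hxy (hi e)), hh.2 x y hxy, ← mul_assoc, ← Complex.exp_add]
    congr 2
    push_cast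
    ring

theorem IsAngle.symm {h : ℂ ≃ₜ ℂ} {A : ℂ × ℂ → ℝ} (hh : IsAngle h A) :
    IsAngle h.symm (fun p => - A (h.symm p.1, h.symm p.2)) := by
  refine ⟨?_, fun x y hxy => ?_⟩
  · refine ContinuousOn.neg ?_
    have h1 : ContinuousOn (fun p : ℂ × ℂ => (h.symm p.1, h.symm p.2))
        {p : ℂ × ℂ | p.1 ≠ p.2} := by
      have := h.symm.continuous
      fun_prop
    exact hh.1.comp h1 (fun p hp => fun e => hp (h.symm.injective e))
  · have h2 := hh.2 (h.symm x) (h.symm y) (fun e => hxy (h.symm.injective e))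
    rw [h.apply_symm_apply, h.apply_symm_apply] at h2
    rw [h2, ← mul_assoc, ← Complex.exp_add]
    simp

theorem IsAngle.add_int {h : ℂ → ℂ} {A : ℂ × ℂ → ℝ} (hA : IsAngle h A) (m : ℤ) :
    IsAngle h (fun p => A p + m) := by
  refine ⟨hA.1.add continuousOn_const, fun x y hxy => ?_⟩
  rw [hA.2 x y hxy]
  congr 1
  have : (2 * Real.pi * Complex.I * ((A (x, y) + (m : ℝ) : ℝ) : ℂ))
      = 2 * Real.pi * Complex.I * (A (x, y) : ℂ) + m * (2 * Real.pi * Complex.I) := by
    push_cast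
    ring
  rw [this, Complex.exp_add, Complex.exp_int_mul_two_pi_mul_I, mul_one]

theorem IsAngle.unique {h : ℂ → ℂ} (hi : Function.Injective h) {A B : ℂ × ℂ → ℝ}
    (hA : IsAngle h A) (hB : IsAngle h B) : ∃ m : ℤ, ∀ x y : ℂ, x ≠ y → A (x, y) = B (x, y) + m := by
  have h1 : ∀ p ∈ {p : ℂ × ℂ | p.1 ≠ p.2}, A p - B p ∈ range ((↑) : ℤ → ℝ) := by
    rintro ⟨x, y⟩ hxy
    have hxy' : x ≠ y := hxy
    have h2 := hA.2 x y hxy'
    rw [hB.2 x y hxy'] at h2
    have h3 : (x - y) / ((‖x - y‖ : ℝ) : ℂ) ≠ 0 := by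
      apply div_ne_zero (sub_ne_zero.2 hxy')
      exact_mod_cast (norm_pos_iff.2 (sub_ne_zero.2 hxy')).ne'
    have h4 := mul_right_cancel₀ h3 h2
    rw [Complex.exp_eq_exp_iff_exists_int] at h4
    obtain ⟨n, hn⟩ := h4
    refine ⟨-n, ?_⟩
    have h5 : (2 * Real.pi * Complex.I : ℂ) ≠ 0 := Complex.two_pi_I_ne_zero
    have h6 : (B (x, y) : ℂ) = A (x, y) + n := by
      apply mul_left_cancel₀ h5
      rw [hn]
      ring
    have h7 : B (x, y) = A (x, y) + n := by exact_mod_cast h6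
    push_cast
    rw [h7]
    ring
  have hdisc : DiscreteTopology (range ((↑) : ℤ → ℝ)) :=
    Int.isClosedEmbedding_coe_real.isEmbedding.toHomeomorph.symm.isEmbedding.discreteTopology
  obtain ⟨c, ⟨m, rfl⟩, hc⟩ := isPreconnected_pairs.eqOn_const_of_mapsTo ⟨hdisc⟩
    (hA.1.sub hB.1) h1 ⟨0, 0, by simp⟩
  refine ⟨m, fun x y hxy => ?_⟩
  have := hc (show (x, y) ∈ {p : ℂ × ℂ | p.1 ≠ p.2} from hxy)
  simp only [Function.const_apply, Pi.sub_apply] at this
  linarith

/-- the angle function of a map at Lipschitz distance `< 1` from the identity -/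
noncomputable def nearAngle (h : ℂ → ℂ) (p : ℂ × ℂ) : ℝ :=
  Complex.arg ((h p.1 - h p.2) / (p.1 - p.2)) / (2 * Real.pi)

theorem near_re_pos {h : ℂ → ℂ} {q : ℝ} (hq : q < 1)
    (hl : ∀ x y, ‖(h x - x) - (h y - y)‖ ≤ q * ‖x - y‖) {x y : ℂ} (hxy : x ≠ y) :
    0 < ((h x - h y) / (x - y)).re := by
  have h1 : x - y ≠ 0 := sub_ne_zero.2 hxy
  have h2 : (h x - h y) / (x - y) = 1 + ((h x - x) - (h y - y)) / (x - y) := by
    field_simp
    ring
  have h3 : ‖((h x - x) - (h y - y)) / (x - y)‖ ≤ q := by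
    rw [norm_div, div_le_iff₀ (norm_pos_iff.2 h1)]
    exact hl x y
  have h4 := (abs_le.1 (Complex.abs_re_le_norm (((h x - x) - (h y - y)) / (x - y)))).1
  rw [h2, Complex.add_re, Complex.one_re]
  linarith

theorem nearAngle_isAngle {h : ℂ → ℂ} (hc : Continuous h) {q : ℝ} (hq : q < 1)
    (hl : ∀ x y, ‖(h x - x) - (h y - y)‖ ≤ q * ‖x - y‖) : IsAngle h (nearAngle h) := by
  refine ⟨?_, fun x y hxy => ?_⟩
  · unfold nearAngle
    refine ContinuousOn.div_const ?_ _
    intro p hp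
    have hp' : p.1 - p.2 ≠ 0 := sub_ne_zero.2 hp
    have h1 : ContinuousAt (fun p : ℂ × ℂ => (h p.1 - h p.2) / (p.1 - p.2)) p := by
      refine ContinuousAt.div ?_ ?_ hp'
      · fun_prop
      · fun_prop
    have h2 : ContinuousAt Complex.arg ((h p.1 - h p.2) / (p.1 - p.2)) := by
      apply Complex.continuousAt_arg
      left
      exact near_re_pos hq hl hp
    exact (ContinuousAt.comp (f := fun p : ℂ × ℂ => (h p.1 - h p.2) / (p.1 - p.2)) h2 h1).continuousWithinAt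
  · have h1 : x - y ≠ 0 := sub_ne_zero.2 hxy
    set r := (h x - h y) / (x - y) with hr
    have hre := near_re_pos hq hl hxy
    have hr0 : r ≠ 0 := by
      intro h0
      rw [← hr, h0] at hre
      simp at hre
    have h2 : h x - h y = r * (x - y) := by
      rw [hr]
      field_simp
    have h3 : (2 * Real.pi * Complex.I * ((nearAngle h (x, y) : ℝ) : ℂ)) = Complex.arg r * Complex.I := by
      unfold nearAngle
      simp only
      rw [← hr]
      push_cast
      have : (Real.pi : ℂ) ≠ 0 := by exact_mod_cast Real.pi_ne_zero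
      field_simp
    have h4 : r = ‖r‖ * Complex.exp (Complex.arg r * Complex.I) := (Complex.norm_mul_exp_arg_mul_I r).symm
    rw [h3, h2, norm_mul]
    have hn1 : ((‖x - y‖ : ℝ) : ℂ) ≠ 0 := by
      exact_mod_cast (norm_pos_iff.2 h1).ne'
    have hn2 : ((‖r‖ : ℝ) : ℂ) ≠ 0 := by
      exact_mod_cast (norm_pos_iff.2 hr0).ne'
    push_cast
    rw [mul_div_mul_comm]
    congr 1
    rw [div_eq_iff hn2, mul_comm]
    exact h4

theorem nearAngle_of_id {h : ℂ → ℂ} {x y : ℂ} (hxy : x ≠ y) (hx : h x = x) (hy : h y = y) :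
    nearAngle h (x, y) = 0 := by
  unfold nearAngle
  simp only
  rw [hx, hy, div_self (sub_ne_zero.2 hxy), Complex.arg_one, zero_div]

theorem nearAngle_of_rot {h : ℂ → ℂ} {x y : ℂ} (hxy : x ≠ y) (t : ℝ) (ht : 0 ≤ t) (ht2 : 2 * t ≤ 1)
    (hx : h x = x * Complex.exp (2 * Real.pi * t * Complex.I))
    (hy : h y = y * Complex.exp (2 * Real.pi * t * Complex.I)) :
    nearAngle h (x, y) = t := by
  unfold nearAngle
  simp only
  rw [hx, hy, ← sub_mul, mul_div_assoc, mul_comm, div_mul_cancel₀ _ (sub_ne_zero.2 hxy)]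
  have h1 : (2 * Real.pi * t * Complex.I : ℂ) = ((2 * Real.pi * t : ℝ) : ℂ) * Complex.I := by
    push_cast
    ring
  rw [h1, Complex.arg_exp_mul_I, toIocMod_eq_self Real.two_pi_pos |>.2]
  · field_simp
  · constructor
    · have : 0 ≤ 2 * Real.pi * t := by positivity
      linarith [Real.pi_pos]
    · nlinarith [Real.pi_pos]

end Pool.Agent.Helper28.Euler
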