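import Mathlib

open scoped ContDiff

namespace Pool.Agent.Helper28.Euler.Defs

/-- A (discrete) group is amenable: it carries a finitely additive left invariant probability
measure defined on all subsets. -/
def IsAmenable (G : Type) [Group G] : Prop :=
  ∃ μ : Set G → ℝ, (∀ S, 0 ≤ μ S) ∧ μ Set.univ = 1 ∧
    (∀ S T, Disjoint S T → μ (S ∪ T) = μ S + μ T) ∧
    ∀ (g : G) (S : Set G), μ ((fun x => g * x) '' S) = μ S

/-- The action `ρ` of `G` on the plane `ℂ = ℝ²` is by orientation preserving `C^∞`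
diffeomorphisms (all `ρ g`, hence also their inverses `ρ g⁻¹`, are smooth, with positive
Jacobian determinant). -/
def IsSmoothOriented {G : Type} [Group G] (ρ : G →* (ℂ ≃ₜ ℂ)) : Prop :=
  ∀ g : G, ContDiff ℝ ∞ (ρ g) ∧ ∀ x : ℂ, 0 < (fderiv ℝ (ρ g) x).det

/-- `A` is a lift of `h` to the universal cover: a continuous function on pairs of distinct
points measuring (in full turns) the angle from the direction of `x - y` to the direction of
`h x - h y`. Two lifts of the same homeomorphism differ by an integer. -/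
def IsLift (h : ℂ → ℂ) (A : ℂ × ℂ → ℝ) : Prop :=
  ContinuousOn A {p : ℂ × ℂ | p.1 ≠ p.2} ∧
    ∀ x y : ℂ, x ≠ y →
      (h x - h y) / ((‖h x - h y‖ : ℝ) : ℂ) =
        Complex.exp (2 * Real.pi * Complex.I * (A (x, y) : ℂ)) * ((x - y) / ((‖x - y‖ : ℝ) : ℂ))

/-- `ε ∈ H²(G; ℝ)` is the Euler class of the action `ρ` on `ℝ²`: the image in real cohomology of
the class of the central extension `0 → ℤ → G̃ → G → 1` obtained by pulling back the universal
covering group of `Homeo₊(ℝ²)`. Choosing a lift `A g` of every `ρ g`, it is the class of the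
cocycle `e (g, h) = (lift of g) ∘ (lift of h) - (lift of g h) ∈ ℤ`. -/
def IsEulerClass {G : Type} [Group G] (ρ : G →* (ℂ ≃ₜ ℂ))
    (ε : groupCohomology.H2 (Rep.trivial ℝ G ℝ)) : Prop :=
  ∃ (A : G → ℂ × ℂ → ℝ) (e : groupCohomology.cocycles₂ (Rep.trivial ℝ G ℝ)),
    (∀ g, IsLift (ρ g) (A g)) ∧
    (∀ (g h : G) (x y : ℂ), x ≠ y →
      e (g, h) = A g (ρ h x, ρ h y) + A h (x, y) - A (g * h) (x, y)) ∧
    groupCohomology.H2π (Rep.trivial ℝ G ℝ) e = ε

end Pool.Agent.Helper28.Euler.Defs
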