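import Pool.Agent.Helper28.Euler.Main
import Pool.Agent.Helper28.Euler.Defs

open scoped ContDiff

namespace Pool.Agent.Helper28.Euler.Defs

/-- There is an amenable group acting on `ℝ²` by orientation preserving `C^∞` diffeomorphisms
whose Euler class in `H²(G; ℝ)` is well defined and nonzero. -/
theorem final : ∃ (G : Type) (_ : Group G) (ρ : G →* (ℂ ≃ₜ ℂ)),
    IsAmenable G ∧ IsSmoothOriented ρ ∧ (∃! ε, IsEulerClass ρ ε) ∧
      ∀ ε, IsEulerClass ρ ε → ε ≠ 0 := by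
  obtain ⟨G, hG, hgood, hmain⟩ := Pool.Agent.Helper28.Euler.main_aux
  let ρ : G →* (ℂ ≃ₜ ℂ) := G.subtype
  have hρ : ∀ g : G, ρ g = (g : ℂ ≃ₜ ℂ) := fun g => rfl
  refine ⟨G, inferInstance, ρ, hG.measure, fun g => ⟨(hgood g g.2).1, (hgood g g.2).2.2.1⟩, ?_, ?_⟩
  · -- existence and uniqueness
    have hex : ∀ g : G, ∃ A, Pool.Agent.Helper28.Euler.IsAngle (g : ℂ ≃ₜ ℂ) A :=
      fun g => (hgood g g.2).2.2.2
    choose A hA using hex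
    have hm : ∀ g h : G, ∃ m : ℤ, ∀ x y : ℂ, x ≠ y →
        A g ((h : ℂ ≃ₜ ℂ) x, (h : ℂ ≃ₜ ℂ) y) + A h (x, y) = A (g * h) (x, y) + m := by
      intro g h
      have h1 := (hA g).comp (hA h) (h : ℂ ≃ₜ ℂ).continuous (h : ℂ ≃ₜ ℂ).injective
      exact h1.unique ((g * h : G) : ℂ ≃ₜ ℂ).injective (hA (g * h))
    choose m hm using hm
    have h01 : (0 : ℂ) ≠ 1 := zero_ne_one
    have hcoc : (fun p : G × G => (m p.1 p.2 : ℝ)) ∈ groupCohomology.cocycles₂ (Rep.trivial ℝ G ℝ) := by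
      rw [groupCohomology.mem_cocycles₂_iff]
      intro g h j
      rw [Rep.trivial_ρ_apply]
      show (m (g * h) j : ℝ) + (m g h : ℝ) = (m h j : ℝ) + (m g (h * j) : ℝ)
      have e1 := hm (g * h) j 0 1 h01
      have e2 := hm g h ((j : ℂ ≃ₜ ℂ) 0) ((j : ℂ ≃ₜ ℂ) 1) (fun e => h01 ((j : ℂ ≃ₜ ℂ).injective e))
      have e3 := hm h j 0 1 h01
      have e4 := hm g (h * j) 0 1 h01
      have e5 : A g (((h * j : G) : ℂ ≃ₜ ℂ) 0, ((h * j : G) : ℂ ≃ₜ ℂ) 1)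
          = A g ((h : ℂ ≃ₜ ℂ) ((j : ℂ ≃ₜ ℂ) 0), (h : ℂ ≃ₜ ℂ) ((j : ℂ ≃ₜ ℂ) 1)) := rfl
      rw [e5] at e4
      rw [← mul_assoc] at e4
      linarith
    refine ⟨groupCohomology.H2π (Rep.trivial ℝ G ℝ) ⟨_, hcoc⟩, ⟨A, ⟨_, hcoc⟩, hA, ?_, rfl⟩, ?_⟩
    · intro g h x y hxy
      have := hm g h x y hxy
      show (m g h : ℝ) = A g ((h : ℂ ≃ₜ ℂ) x, (h : ℂ ≃ₜ ℂ) y) + A h (x, y) - A (g * h) (x, y)
      linarith
    · rintro ε ⟨A', e', hA', he', rfl⟩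
      rw [groupCohomology.H2π_eq_iff]
      have hn : ∀ g : G, ∃ n : ℤ, ∀ x y : ℂ, x ≠ y → A' g (x, y) = A g (x, y) + n :=
        fun g => Pool.Agent.Helper28.Euler.IsAngle.unique (g : ℂ ≃ₜ ℂ).injective (hA' g) (hA g)
      choose n hn using hn
      refine ⟨fun g => (n g : ℝ), ?_⟩
      funext p
      obtain ⟨g, h⟩ := p
      rw [groupCohomology.d₁₂_hom_apply, Rep.trivial_ρ_apply, Pi.sub_apply]
      have e1 : e' (g, h) = A' g ((h : ℂ ≃ₜ ℂ) 0, (h : ℂ ≃ₜ ℂ) 1) + A' h (0, 1) - A' (g * h) (0, 1) :=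
        he' g h 0 1 h01
      have e2 := hm g h 0 1 h01
      rw [hn g _ _ (fun e => h01 ((h : ℂ ≃ₜ ℂ).injective e)), hn h 0 1 h01, hn (g * h) 0 1 h01] at e1
      have e3 : (n h : ℝ) - n (g * h) + n g = e' (g, h) - (m g h : ℝ) := by
        rw [e1]
        linarith
      exact e3
  · rintro ε ⟨A, e, hA, he, rfl⟩ h0
    rw [groupCohomology.H2π_eq_zero_iff] at h0
    obtain ⟨β, hβ⟩ := h0
    refine hmain A hA (fun g => β g) ?_
    intro g h x y hxy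
    have e1 : e (g, h) = A g ((h : ℂ ≃ₜ ℂ) x, (h : ℂ ≃ₜ ℂ) y) + A h (x, y) - A (g * h) (x, y) :=
      he g h x y hxy
    rw [← e1, ← hβ, groupCohomology.d₁₂_hom_apply, Rep.trivial_ρ_apply]
    show (β h : ℝ) - β (g * h) + β g = β g + β h - β (g * h)
    ring


end Pool.Agent.Helper28.Euler.Defs
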