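import Pool.Agent.Helper28.Euler.Angle

open Filter Topology Set
open scoped ContDiff

namespace Pool.Agent.Helper28.Euler

theorem det_pos_of_near (T : ℂ →L[ℝ] ℂ) (q : ℝ) (hq : q < 1) (hT : ‖T‖ ≤ q) :
    0 < (ContinuousLinearMap.id ℝ ℂ + T).det := by
  have hne : ∀ t : ℝ, 0 ≤ t → t ≤ 1 → (ContinuousLinearMap.id ℝ ℂ + t • T).det ≠ 0 := by
    intro t ht0 ht1 h0
    have h1 : LinearMap.det ((ContinuousLinearMap.id ℝ ℂ + t • T : ℂ →L[ℝ] ℂ) : ℂ →ₗ[ℝ] ℂ) = 0 := h0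
    have h2 := LinearMap.bot_lt_ker_of_det_eq_zero h1
    obtain ⟨x, hx, hx0⟩ := (Submodule.ne_bot_iff _).1 h2.ne'
    rw [LinearMap.mem_ker] at hx
    have h3 : x + t • T x = 0 := hx
    have h4 : ‖x‖ = ‖t • T x‖ := by
      rw [← norm_neg (t • T x)]
      congr 1
      linear_combination h3
    have h5 : ‖t • T x‖ ≤ q * ‖x‖ := by
      rw [norm_smul, Real.norm_eq_abs, abs_of_nonneg ht0]
      have h6 : ‖T x‖ ≤ q * ‖x‖ := (T.le_opNorm x).trans (mul_le_mul_of_nonneg_right hT (norm_nonneg _))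
      calc t * ‖T x‖ ≤ 1 * ‖T x‖ := mul_le_mul_of_nonneg_right ht1 (norm_nonneg _)
        _ = ‖T x‖ := one_mul _
        _ ≤ _ := h6
    have h7 : 0 < ‖x‖ := norm_pos_iff.2 hx0
    rw [← h4] at h5
    nlinarith
  by_contra hcon
  push Not at hcon
  have hcont : ContinuousOn (fun t : ℝ => (ContinuousLinearMap.id ℝ ℂ + t • T).det) (Icc 0 1) := by
    apply Continuous.continuousOn
    exact ContinuousLinearMap.continuous_det.comp (by fun_prop)
  have h1 := intermediate_value_Icc' (zero_le_one) hcont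
  have h2 : (0 : ℝ) ∈ Icc ((fun t : ℝ => (ContinuousLinearMap.id ℝ ℂ + t • T).det) 1)
      ((fun t : ℝ => (ContinuousLinearMap.id ℝ ℂ + t • T).det) 0) := by
    constructor
    · simpa using hcon
    · simp [ContinuousLinearMap.det]
  obtain ⟨t, ht, ht0⟩ := h1 h2
  exact hne t ht.1 ht.2 ht0

/-- smooth diffeomorphisms with positive Jacobian and an angle function -/
def IsGood (h : ℂ ≃ₜ ℂ) : Prop :=
  ContDiff ℝ ∞ h ∧ ContDiff ℝ ∞ h.symm ∧ (∀ z, 0 < (fderiv ℝ h z).det) ∧ ∃ A, IsAngle h A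

theorem fderiv_det_comp {g h : ℂ → ℂ} {z : ℂ} (hg : DifferentiableAt ℝ g (h z))
    (hh : DifferentiableAt ℝ h z) :
    (fderiv ℝ (fun z => g (h z)) z).det = (fderiv ℝ g (h z)).det * (fderiv ℝ h z).det := by
  have h1 : fderiv ℝ (fun z => g (h z)) z = (fderiv ℝ g (h z)).comp (fderiv ℝ h z) :=
    fderiv_comp z hg hh
  rw [h1]
  exact LinearMap.det_comp _ _

def Good : Subgroup (ℂ ≃ₜ ℂ) where
  carrier := {h | IsGood h}
  mul_mem' := by
    rintro a b ⟨ha1, ha2, ha3, A, hA⟩ ⟨hb1, hb2, hb3, B, hB⟩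
    refine ⟨ha1.comp hb1, hb2.comp ha2, fun z => ?_, _, hA.comp hB b.continuous b.injective⟩
    have h1 : (fderiv ℝ (a * b : ℂ ≃ₜ ℂ) z).det = (fderiv ℝ a (b z)).det * (fderiv ℝ b z).det :=
      fderiv_det_comp ((ha1.differentiable (by simp)) _) ((hb1.differentiable (by simp)) _)
    rw [h1]
    exact mul_pos (ha3 _) (hb3 _)
  one_mem' := by
    refine ⟨contDiff_id, contDiff_id, fun z => ?_, _, IsAngle.id⟩
    have : fderiv ℝ (1 : ℂ ≃ₜ ℂ) z = ContinuousLinearMap.id ℝ ℂ := fderiv_id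
    rw [this]
    simp [ContinuousLinearMap.det]
  inv_mem' := by
    rintro a ⟨ha1, ha2, ha3, A, hA⟩
    refine ⟨ha2, ha1, fun z => ?_, _, hA.symm⟩
    have h1 := fderiv_det_comp (g := a) (h := a.symm) (z := z)
      ((ha1.differentiable (by simp)) _) ((ha2.differentiable (by simp)) _)
    have h2 : (fun z => a (a.symm z)) = fun z => z := by
      funext z
      simp
    rw [h2] at h1
    have h3 : (fderiv ℝ (fun z : ℂ => z) z).det = 1 := by
      rw [fderiv_fun_id]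
      simp [ContinuousLinearMap.det]
    rw [h3] at h1
    have h4 := ha3 (a.symm z)
    show 0 < (fderiv ℝ a.symm z).det
    by_contra hcon
    push Not at hcon
    nlinarith

theorem mem_Good {h : ℂ ≃ₜ ℂ} : h ∈ Good ↔ IsGood h := Iff.rfl

theorem good_of_near (h : ℂ ≃ₜ ℂ) (hs : ContDiff ℝ ∞ h) {q : ℝ} (hq : q < 1) (hq0 : 0 ≤ q)
    (hl : ∀ x y, ‖(h x - x) - (h y - y)‖ ≤ q * ‖x - y‖) : IsGood h := by
  have hT : ∀ z, ‖fderiv ℝ (fun z => h z - z) z‖ ≤ q := by
    intro z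
    have hlip : LipschitzWith ⟨q, hq0⟩ (fun z => h z - z) := by
      apply LipschitzWith.of_dist_le_mul
      intro x y
      rw [dist_eq_norm, dist_eq_norm]
      exact hl x y
    exact norm_fderiv_le_of_lipschitz ℝ hlip
  have hfd : ∀ z, fderiv ℝ h z = ContinuousLinearMap.id ℝ ℂ + fderiv ℝ (fun z => h z - z) z := by
    intro z
    have h1 : DifferentiableAt ℝ h z := (hs.differentiable (by simp)) z
    have h2 : fderiv ℝ (fun z => h z - z) z = fderiv ℝ h z - ContinuousLinearMap.id ℝ ℂ := by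
      rw [fderiv_fun_sub h1 differentiableAt_fun_id, fderiv_fun_id]
    rw [h2]
    abel
  have hdet : ∀ z, 0 < (fderiv ℝ h z).det := by
    intro z
    rw [hfd z]
    exact det_pos_of_near _ q hq (hT z)
  refine ⟨hs, ?_, hdet, _, nearAngle_isAngle h.continuous hq hl⟩
  apply h.contDiff_symm (f₀' := fun z =>
    (fderiv ℝ h z).toContinuousLinearEquivOfDetNeZero (hdet z).ne') _ hs
  intro z
  rw [ContinuousLinearMap.coe_toContinuousLinearEquivOfDetNeZero]
  exact ((hs.differentiable (by simp)) z).hasFDerivAt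

/-- limit of a sequence of homeomorphisms that stabilises on balls -/
theorem exists_limit (h : ℕ → ℂ ≃ₜ ℂ) (r : ℕ → ℝ) (hr : ∀ z : ℂ, ∃ n, ‖z‖ < r n)
    (hmono : Monotone r) (h1 : ∀ n z, ‖z‖ < r n → h (n + 1) z = h n z)
    (h2 : ∀ n z, ‖z‖ < r n → (h (n + 1)).symm z = (h n).symm z) :
    ∃ H : ℂ ≃ₜ ℂ, ∀ n z, ‖z‖ < r n → H z = h n z ∧ H.symm z = (h n).symm z := by
  classical
  have st1 : ∀ (n m : ℕ) z, n ≤ m → ‖z‖ < r n → h m z = h n z := by
    intro n m z hnm hz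
    induction m, hnm using Nat.le_induction with
    | base => rfl
    | succ m hm ih => rw [h1 m z (hz.trans_le (hmono hm)), ih]
  have st2 : ∀ (n m : ℕ) z, n ≤ m → ‖z‖ < r n → (h m).symm z = (h n).symm z := by
    intro n m z hnm hz
    induction m, hnm using Nat.le_induction with
    | base => rfl
    | succ m hm ih => rw [h2 m z (hz.trans_le (hmono hm)), ih]
  let N : ℂ → ℕ := fun z => Nat.find (hr z)
  have hN : ∀ z, ‖z‖ < r (N z) := fun z => Nat.find_spec (hr z)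
  have hNle : ∀ n z, ‖z‖ < r n → N z ≤ n := fun n z hz => Nat.find_le (h := hr z) hz
  let f : ℂ → ℂ := fun z => h (N z) z
  let g : ℂ → ℂ := fun z => (h (N z)).symm z
  have hf : ∀ n z, ‖z‖ < r n → f z = h n z := fun n z hz => (st1 _ _ z (hNle n z hz) (hN z)).symm
  have hg : ∀ n z, ‖z‖ < r n → g z = (h n).symm z :=
    fun n z hz => (st2 _ _ z (hNle n z hz) (hN z)).symm
  have hopen : ∀ n, IsOpen {z : ℂ | ‖z‖ < r n} := fun n =>
    isOpen_lt continuous_norm continuous_const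
  refine ⟨{ toFun := f, invFun := g, left_inv := ?_, right_inv := ?_, continuous_toFun := ?_, continuous_invFun := ?_ }, ?_⟩
  · intro z
    obtain ⟨n, hn⟩ := hr z
    obtain ⟨m, hm⟩ := hr (f z)
    have hz : ‖z‖ < r (max n m) := hn.trans_le (hmono (le_max_left _ _))
    have hfz : ‖f z‖ < r (max n m) := hm.trans_le (hmono (le_max_right _ _))
    rw [hg _ _ hfz, hf _ _ hz, Homeomorph.symm_apply_apply]
  · intro z
    obtain ⟨n, hn⟩ := hr z
    obtain ⟨m, hm⟩ := hr (g z)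
    have hz : ‖z‖ < r (max n m) := hn.trans_le (hmono (le_max_left _ _))
    have hfz : ‖g z‖ < r (max n m) := hm.trans_le (hmono (le_max_right _ _))
    rw [hf _ _ hfz, hg _ _ hz, Homeomorph.apply_symm_apply]
  · rw [continuous_iff_continuousAt]
    intro z
    obtain ⟨n, hn⟩ := hr z
    refine (h n).continuous.continuousAt.congr ?_
    filter_upwards [(hopen n).mem_nhds hn] with w hw
    exact (hf n w hw).symm
  · rw [continuous_iff_continuousAt]
    intro z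
    obtain ⟨n, hn⟩ := hr z
    refine (h n).symm.continuous.continuousAt.congr ?_
    filter_upwards [(hopen n).mem_nhds hn] with w hw
    exact (hg n w hw).symm
  · intro n z hz
    exact ⟨hf n z hz, hg n z hz⟩

/-- the limit is good if the approximations are, and it inherits angle functions -/
theorem limit_good (h : ℕ → ℂ ≃ₜ ℂ) (r : ℕ → ℝ) (hr : ∀ z : ℂ, ∃ n, ‖z‖ < r n)
    (hmono : Monotone r) (H : ℂ ≃ₜ ℂ)
    (hH : ∀ n z, ‖z‖ < r n → H z = h n z ∧ H.symm z = (h n).symm z)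
    (hgood : ∀ n, IsGood (h n)) (A : ℕ → ℂ × ℂ → ℝ) (hA : ∀ n, IsAngle (h n) (A n))
    (hst : ∀ n x y, x ≠ y → ‖x‖ < r n → ‖y‖ < r n → A (n + 1) (x, y) = A n (x, y)) :
    IsGood H ∧ ∃ B, IsAngle H B ∧ ∀ n x y, x ≠ y → ‖x‖ < r n → ‖y‖ < r n → B (x, y) = A n (x, y) := by
  classical
  have hopen : ∀ n, IsOpen {z : ℂ | ‖z‖ < r n} := fun n =>
    isOpen_lt continuous_norm continuous_const
  have st : ∀ (n m : ℕ) x y, n ≤ m → x ≠ y → ‖x‖ < r n → ‖y‖ < r n → A m (x, y) = A n (x, y) := by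
    intro n m x y hnm hxy hx hy
    induction m, hnm using Nat.le_induction with
    | base => rfl
    | succ m hm ih => rw [hst m x y hxy (hx.trans_le (hmono hm)) (hy.trans_le (hmono hm)), ih]
  have hr2 : ∀ p : ℂ × ℂ, ∃ n, ‖p.1‖ < r n ∧ ‖p.2‖ < r n := by
    intro p
    obtain ⟨n, hn⟩ := hr p.1
    obtain ⟨m, hm⟩ := hr p.2
    exact ⟨max n m, hn.trans_le (hmono (le_max_left _ _)), hm.trans_le (hmono (le_max_right _ _))⟩
  let N : ℂ × ℂ → ℕ := fun p => Nat.find (hr2 p)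
  have hN : ∀ p, ‖p.1‖ < r (N p) ∧ ‖p.2‖ < r (N p) := fun p => Nat.find_spec (hr2 p)
  have hNle : ∀ n p, ‖p.1‖ < r n → ‖p.2‖ < r n → N p ≤ n :=
    fun n p hz hw => Nat.find_le (h := hr2 p) ⟨hz, hw⟩
  let B : ℂ × ℂ → ℝ := fun p => A (N p) p
  have hB : ∀ n x y, x ≠ y → ‖x‖ < r n → ‖y‖ < r n → B (x, y) = A n (x, y) :=
    fun n x y hxy hx hy => (st _ _ x y (hNle n (x, y) hx hy) hxy (hN (x, y)).1 (hN (x, y)).2).symm
  have hBangle : IsAngle H B := by
    refine ⟨?_, ?_⟩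
    · intro p hp
      obtain ⟨n, hn1, hn2⟩ := hr2 p
      have hU : {q : ℂ × ℂ | ‖q.1‖ < r n ∧ ‖q.2‖ < r n} ∈ 𝓝[{p : ℂ × ℂ | p.1 ≠ p.2}] p := by
        apply mem_nhdsWithin_of_mem_nhds
        have hop : IsOpen {q : ℂ × ℂ | ‖q.1‖ < r n ∧ ‖q.2‖ < r n} :=
          ((hopen n).preimage continuous_fst).inter ((hopen n).preimage continuous_snd)
        exact hop.mem_nhds ⟨hn1, hn2⟩
      refine ((hA n).1 p hp).congr_of_eventuallyEq ?_ (hB n p.1 p.2 hp hn1 hn2)
      filter_upwards [hU, self_mem_nhdsWithin] with q hq hq2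
      exact hB n q.1 q.2 hq2 hq.1 hq.2
    · intro x y hxy
      obtain ⟨n, hn1, hn2⟩ := hr2 (x, y)
      rw [hB n x y hxy hn1 hn2, (hH n x hn1).1, (hH n y hn2).1]
      exact (hA n).2 x y hxy
  refine ⟨⟨?_, ?_, ?_, B, hBangle⟩, B, hBangle, hB⟩
  · rw [contDiff_iff_contDiffAt]
    intro z
    obtain ⟨n, hn⟩ := hr z
    refine (hgood n).1.contDiffAt.congr_of_eventuallyEq ?_
    filter_upwards [(hopen n).mem_nhds hn] with w hw
    exact (hH n w hw).1
  · rw [contDiff_iff_contDiffAt]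
    intro z
    obtain ⟨n, hn⟩ := hr z
    refine (hgood n).2.1.contDiffAt.congr_of_eventuallyEq ?_
    filter_upwards [(hopen n).mem_nhds hn] with w hw
    exact (hH n w hw).2
  · intro z
    obtain ⟨n, hn⟩ := hr z
    have : (H : ℂ → ℂ) =ᶠ[𝓝 z] h n := by
      filter_upwards [(hopen n).mem_nhds hn] with w hw
      exact (hH n w hw).1
    rw [this.fderiv_eq]
    exact (hgood n).2.2.1 z

end Pool.Agent.Helper28.Euler
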