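import Pool.Agent.Helper28.Euler.Maps

open Filter Topology Set
open scoped ContDiff

namespace Pool.Agent.Helper28.Euler

/-- The concrete data. -/
noncomputable def mkData (R : ℝ) (hR : 4 ≤ R) (k : ℂ ≃ₜ ℂ) (hk1 : ∀ z, R ≤ ‖z‖ → k z = z)
    (hk2 : ∀ z : ℂ, z.re ≤ (k z).re) (hk3 : ∀ z, ‖z‖ ≤ 2 → k z = z + 5) : Data (ℂ ≃ₜ ℂ) ℂ where
  F := dil R (by linarith)
  k := k
  c := tw 1
  E n := {z | ‖z‖ < R ^ n}
  D n := {z | ‖z‖ ≤ 2 * R ^ n}
  FE n x := by
    have hR0 : 0 < R := by linarith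
    rw [smul_eq, dil_apply, mem_ofPred_eq, mem_ofPred_eq, norm_mul, Complex.norm_real,
      Real.norm_eq_abs, abs_of_pos hR0, zpow_add_one₀ hR0.ne', mul_comm (R ^ n)]
    exact mul_lt_mul_iff_right₀ hR0
  FD n x := by
    have hR0 : 0 < R := by linarith
    rw [smul_eq, dil_apply, mem_ofPred_eq, mem_ofPred_eq, norm_mul, Complex.norm_real,
      Real.norm_eq_abs, abs_of_pos hR0, zpow_add_one₀ hR0.ne', mul_comm (R ^ n), ← mul_assoc,
      mul_comm 2 R, mul_assoc]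
    exact mul_le_mul_iff_right₀ hR0
  ED n z hz := by
    have hR0 : 0 < R := by linarith
    have h1 : 0 < R ^ n := zpow_pos hR0 n
    have h2 : ‖z‖ < R ^ n := hz
    show ‖z‖ ≤ 2 * R ^ n
    linarith
  DE n z hz := by
    have hR0 : 0 < R := by linarith
    have h1 : 0 < R ^ n := zpow_pos hR0 n
    have h2 : ‖z‖ ≤ 2 * R ^ n := hz
    show ‖z‖ < R ^ (n + 1)
    rw [zpow_add_one₀ hR0.ne']
    nlinarith
  ksupp z hz := by
    rw [smul_eq]
    apply hk1
    by_contra hcon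
    push Not at hcon
    apply hz
    show ‖z‖ < R ^ (1 : ℤ)
    rwa [zpow_one]
  kdisp := by
    have hpow : ∀ (n : ℕ) (z : ℂ), z.re ≤ ((k ^ n) z).re := by
      intro n
      induction n with
      | zero => intro z; exact le_rfl
      | succ n ih =>
        intro z
        rw [pow_succ]
        exact (hk2 z).trans (ih (k z))
    have hpos : ∀ (n : ℕ) (z : ℂ), ‖z‖ ≤ 2 → ¬ ‖(k ^ (n + 1)) z‖ ≤ 2 := by
      intro n z hz hcon
      rw [pow_succ] at hcon
      have h1 := hpow n (k z)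
      rw [hk3 z hz] at h1
      have h2 : ‖(k ^ n) (k z)‖ ≤ 2 := hcon
      rw [hk3 z hz] at h2
      have h3 := (abs_le.1 (Complex.abs_re_le_norm z)).1
      have h4 := (abs_le.1 (Complex.abs_re_le_norm ((k ^ n) (z + 5)))).2
      have h5 : (z + 5).re = z.re + 5 := by simp
      rw [h5] at h1
      linarith
    intro j hj z hz hcon
    have hz' : ‖z‖ ≤ 2 := by
      have : ‖z‖ ≤ 2 * R ^ (0 : ℤ) := hz
      simpa using this
    have hc' : ‖(k ^ j) z‖ ≤ 2 := by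
      have : ‖(k ^ j) z‖ ≤ 2 * R ^ (0 : ℤ) := hcon
      simpa using this
    rcases lt_or_gt_of_ne hj with h | h
    · obtain ⟨n, hn⟩ : ∃ n : ℕ, j = -((n + 1 : ℕ) : ℤ) := ⟨(-j).toNat - 1, by omega⟩
      have h1 : (k ^ (n + 1)) ((k ^ j) z) = z := by
        have : (k ^ (n + 1) * k ^ j) z = z := by
          rw [hn, zpow_neg, zpow_natCast, mul_inv_cancel]
          rfl
        exact this
      exact hpos n _ hc' (by rw [h1]; exact hz')
    · obtain ⟨n, hn⟩ : ∃ n : ℕ, j = ((n + 1 : ℕ) : ℤ) := ⟨j.toNat - 1, by omega⟩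
      rw [hn, zpow_natCast] at hc'
      exact hpos n z hz' hc'
  csupp z hz := by
    rw [smul_eq]
    apply tw_one_supp
    rintro ⟨h1, h2⟩
    apply hz
    constructor
    · show ‖z‖ ≤ 2 * R ^ (0 : ℤ)
      simpa using h1
    · intro h3
      have h4 : ‖z‖ < R ^ (0 : ℤ) := h3
      rw [zpow_zero] at h4
      linarith

theorem main_aux : ∃ G : Subgroup (ℂ ≃ₜ ℂ), Am G ∧ (∀ g ∈ G, IsGood g) ∧
    ∀ (A : G → ℂ × ℂ → ℝ), (∀ g : G, IsAngle (g : ℂ ≃ₜ ℂ) (A g)) → ∀ β : G → ℝ,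
      ¬ (∀ (g h : G) (x y : ℂ), x ≠ y →
        A g ((h : ℂ ≃ₜ ℂ) x, (h : ℂ ≃ₜ ℂ) y) + A h (x, y) - A (g * h) (x, y)
          = β g + β h - β (g * h)) := by
  obtain ⟨R, hR, k, hkg, hk1, hk2, hk3⟩ := exists_k
  obtain ⟨hcg, Ac, hAc, hAc0, hAc1⟩ := tw_one_angle
  have hR0 : 0 < R := by linarith
  have hR1 : 1 < R := by linarith
  set d := mkData R hR k hk1 hk2 hk3 with hd
  set F : ℂ ≃ₜ ℂ := dil R hR0.ne' with hF
  set c : ℂ ≃ₜ ℂ := tw 1 with hc
  have dF : d.F = F := rfl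
  have dk : d.k = k := rfl
  have dc : d.c = c := rfl
  have hFg : IsGood F := dil_good R hR0
  -- basic facts
  have kinv : ∀ z : ℂ, ‖z‖ ≤ 1 → 2 ≤ ‖k⁻¹ z‖ := by
    intro z hz
    by_contra hcon
    push Not at hcon
    have h1 := hk3 _ hcon.le
    have h2 : k (k⁻¹ z) = z := k.apply_symm_apply z
    rw [h2] at h1
    have h3 := (abs_le.1 (Complex.abs_re_le_norm (k⁻¹ z))).1
    have h4 := (abs_le.1 (Complex.abs_re_le_norm z)).2
    have h5 : z.re = (k⁻¹ z).re + 5 := by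
      conv_lhs => rw [h1]
      simp
    linarith
  have cinv_out : ∀ z : ℂ, 2 ≤ ‖z‖ → c⁻¹ z = z := by
    intro z hz
    have h1 : c z = z := by
      rw [hc, tw_outside 1 hz]
      simp
    conv_lhs => rw [← h1]
    exact c.symm_apply_apply z
  have c_in : ∀ z : ℂ, ‖z‖ ≤ 1 → c z = z := fun z hz => tw_inside 1 hz
  have cinv_in : ∀ z : ℂ, ‖z‖ ≤ 1 → c⁻¹ z = z := by
    intro z hz
    conv_lhs => rw [← c_in z hz]
    exact c.symm_apply_apply z
  set v : ℂ ≃ₜ ℂ := c * (k * c⁻¹ * k⁻¹) with hv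
  have v_apply : ∀ z, v z = c (k (c⁻¹ (k⁻¹ z))) := fun z => rfl
  have v_in : ∀ z : ℂ, ‖z‖ ≤ 1 → v z = z := by
    intro z hz
    rw [v_apply, cinv_out _ (kinv z hz)]
    have h2 : k (k⁻¹ z) = z := k.apply_symm_apply z
    rw [h2, c_in z hz]
  have v_out : ∀ z : ℂ, R ≤ ‖z‖ → v z = z := by
    intro z hz
    have h1 : k⁻¹ z = z := by
      conv_lhs => rw [← hk1 z hz]
      exact k.symm_apply_apply z
    rw [v_apply, h1, cinv_out z (by linarith), hk1 z hz, hc, tw_outside 1 (by linarith)]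
    simp
  have hvg : IsGood v := Good.mul_mem hcg (Good.mul_mem (Good.mul_mem hkg (Good.inv_mem hcg)) (Good.inv_mem hkg))
  -- angle function of v
  obtain ⟨Av, hAv, hAv0⟩ : ∃ Av, IsAngle v Av ∧ ∀ x y, x ≠ y → ‖x‖ < 1 → ‖y‖ < 1 → Av (x, y) = 0 := by
    obtain ⟨_, _, _, Ak, hAk⟩ := hkg
    have h1 := hAk.symm
    have h2 := hAc.symm
    have h3 := h2.comp h1 k.symm.continuous k.symm.injective
    have h4 := hAk.comp h3 (c.symm.continuous.comp k.symm.continuous)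
      (c.symm.injective.comp k.symm.injective)
    have h5 := hAc.comp h4 (k.continuous.comp (c.symm.continuous.comp k.symm.continuous))
      (k.injective.comp (c.symm.injective.comp k.symm.injective))
    have h6 := h5.add_int 1
    refine ⟨_, h6.congr (fun z => rfl), ?_⟩
    intro x y hxy hx hy
    simp only
    have ex : c.symm (k.symm x) = k.symm x := cinv_out _ (kinv x hx.le)
    have ey : c.symm (k.symm y) = k.symm y := cinv_out _ (kinv y hy.le)
    have hne : k.symm x ≠ k.symm y := fun e => hxy (k.symm.injective e)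
    rw [ex, ey, k.apply_symm_apply, k.apply_symm_apply, hAc0 x y hxy hx.le hy.le,
      hAc1 _ _ hne (kinv x hx.le) (kinv y hy.le)]
    push_cast
    ring
  -- powers of F
  have Fpow : ∀ (n : ℕ) (z : ℂ), ‖(F ^ n) z‖ = R ^ n * ‖z‖ := by
    intro n
    induction n with
    | zero =>
      intro z
      rw [pow_zero, pow_zero, one_mul]
      rfl
    | succ n ih =>
      intro z
      rw [pow_succ F]
      have h1 : (F ^ n * F) z = (F ^ n) (F z) := rfl
      rw [h1, ih, hF, dil_apply, norm_mul, Complex.norm_real, Real.norm_eq_abs, abs_of_pos hR0]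
      ring
  have Fpow_inv : ∀ (n : ℕ) (z : ℂ), ‖z‖ = R ^ n * ‖(F ^ n)⁻¹ z‖ := by
    intro n z
    rw [← Fpow n]
    congr 1
    exact ((F ^ n).apply_symm_apply z).symm
  have Fang : ∀ n : ℕ, IsAngle ⇑(F ^ n) (fun _ => 0) := by
    intro n
    induction n with
    | zero => exact IsAngle.id
    | succ n ih =>
      have := ih.comp (dil_isAngle R hR0) F.continuous F.injective
      rw [pow_succ]
      simp only [add_zero] at this
      exact this
  set w : ℕ → (ℂ ≃ₜ ℂ) := fun n => F ^ n * v * (F ^ n)⁻¹ with hw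
  have w_apply : ∀ n z, w n z = (F ^ n) (v ((F ^ n)⁻¹ z)) := fun n z => rfl
  have hrn : ∀ n : ℕ, 0 < R ^ n := fun n => pow_pos hR0 n
  have w_in : ∀ n z, ‖z‖ < R ^ n → w n z = z := by
    intro n z hz
    have h1 := Fpow_inv n z
    have h2 : ‖(F ^ n)⁻¹ z‖ ≤ 1 := by
      rw [h1] at hz
      have := hrn n
      nlinarith
    rw [w_apply, v_in _ h2]
    exact (F ^ n).apply_symm_apply z
  have w_out : ∀ n z, R ^ (n + 1) ≤ ‖z‖ → w n z = z := by
    intro n z hz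
    have h1 := Fpow_inv n z
    have h2 : R ≤ ‖(F ^ n)⁻¹ z‖ := by
      rw [h1, pow_succ] at hz
      exact le_of_mul_le_mul_left hz (hrn n)
    rw [w_apply, v_out _ h2]
    exact (F ^ n).apply_symm_apply z
  have w_good : ∀ n, IsGood (w n) := fun n =>
    Good.mul_mem (Good.mul_mem (Good.pow_mem hFg n) hvg) (Good.inv_mem (Good.pow_mem hFg n))
  have w_ang : ∀ n, ∃ Aw, IsAngle (w n) Aw ∧
      ∀ x y, x ≠ y → ‖x‖ < R ^ n → ‖y‖ < R ^ n → Aw (x, y) = 0 := by
    intro n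
    have h1 := (Fang n).symm
    have h2 := hAv.comp h1 (F ^ n).symm.continuous (F ^ n).symm.injective
    have h3 := (Fang n).comp h2 (v.continuous.comp (F ^ n).symm.continuous)
      (v.injective.comp (F ^ n).symm.injective)
    refine ⟨_, h3.congr (fun z => rfl), ?_⟩
    intro x y hxy hx hy
    simp only
    have ex := Fpow_inv n x
    have ey := Fpow_inv n y
    have hx1 : ‖(F ^ n)⁻¹ x‖ < 1 := by
      rw [ex] at hx
      have := hrn n
      nlinarith
    have hy1 : ‖(F ^ n)⁻¹ y‖ < 1 := by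
      rw [ey] at hy
      have := hrn n
      nlinarith
    have h4 := hAv0 ((F ^ n)⁻¹ x) ((F ^ n)⁻¹ y) (fun e => hxy ((F ^ n).symm.injective e)) hx1 hy1
    have h5 : Av ((F ^ n).symm x, (F ^ n).symm y) = 0 := h4
    rw [h5]
    simp
  choose Aw hAw hAw0 using w_ang
  let Sn : ℕ → (ℂ ≃ₜ ℂ) := fun n => Nat.rec 1 (fun m s => s * w m) n
  have Sn0 : Sn 0 = 1 := rfl
  have Sns : ∀ n, Sn (n + 1) = Sn n * w n := fun n => rfl
  let An : ℕ → ℂ × ℂ → ℝ := fun n =>
    Nat.rec (fun _ => 0) (fun m a => fun p => a (w m p.1, w m p.2) + Aw m p) n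
  have An0 : An 0 = fun _ => 0 := rfl
  have Ans : ∀ n, An (n + 1) = fun p => An n (w n p.1, w n p.2) + Aw n p := fun n => rfl
  have Sn_good : ∀ n, IsGood (Sn n) := by
    intro n
    induction n with
    | zero => exact Good.one_mem
    | succ n ih => exact Good.mul_mem ih (w_good n)
  have Sn_ang : ∀ n, IsAngle (Sn n) (An n) := by
    intro n
    induction n with
    | zero => exact IsAngle.id
    | succ n ih => exact ih.comp (hAw n) (w n).continuous (w n).injective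
  have Sn_out : ∀ n z, R ^ n ≤ ‖z‖ → Sn n z = z := by
    intro n
    induction n with
    | zero => intro z _; rfl
    | succ n ih =>
      intro z hz
      have h1 : Sn (n + 1) z = Sn n (w n z) := rfl
      rw [h1, w_out n z hz]
      apply ih
      refine le_trans ?_ hz
      exact pow_le_pow_right₀ hR1.le (by omega)
  have Sn_inv_in : ∀ n z, ‖z‖ < R ^ n → ‖(Sn n)⁻¹ z‖ < R ^ n := by
    intro n z hz
    by_contra hcon
    push Not at hcon
    have h1 := Sn_out n _ hcon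
    have h2 : Sn n ((Sn n)⁻¹ z) = z := (Sn n).apply_symm_apply z
    rw [h2] at h1
    rw [← h1] at hcon
    linarith
  have hmono : Monotone (fun n : ℕ => R ^ n) := fun a b hab => pow_le_pow_right₀ hR1.le hab
  have hex : ∀ z : ℂ, ∃ n : ℕ, ‖z‖ < R ^ n := fun z => pow_unbounded_of_one_lt _ hR1
  obtain ⟨S, hS⟩ := exists_limit Sn (fun n => R ^ n) hex hmono
    (by
      intro n z hz
      have h1 : Sn (n + 1) z = Sn n (w n z) := rfl
      rw [h1, w_in n z hz])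
    (by
      intro n z hz
      have h1 : (Sn (n + 1)).symm z = (w n)⁻¹ ((Sn n)⁻¹ z) := rfl
      have h2 := w_in n _ (Sn_inv_in n z hz)
      rw [h1]
      conv_lhs => rw [← h2]
      exact (w n).symm_apply_apply _)
  obtain ⟨hSg, AS, hAS, hASe⟩ := limit_good Sn (fun n => R ^ n) hex hmono S hS Sn_good An Sn_ang
    (by
      intro n x y hxy hx hy
      have h1 : An (n + 1) (x, y) = An n (w n x, w n y) + Aw n (x, y) := rfl
      rw [h1, w_in n x hx, w_in n y hy, hAw0 n x y hxy hx hy, add_zero])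
  have hAS0 : ∀ x y, x ≠ y → ‖x‖ < 1 → ‖y‖ < 1 → AS (x, y) = 0 := by
    intro x y hxy hx hy
    rw [hASe 0 x y hxy (by simpa using hx) (by simpa using hy), An0]
  have S_in : ∀ z : ℂ, ‖z‖ < 1 → S z = z := by
    intro z hz
    rw [(hS 0 z (by simpa using hz)).1]
    rfl
  -- relation
  have Sn_rel : ∀ n, Sn (n + 1) = v * (F * Sn n * F⁻¹) := by
    intro n
    induction n with
    | zero =>
      rw [Sns, Sn0, hw]
      simp
    | succ n ih =>
      have e1 : Sn (n + 1 + 1) = (v * (F * Sn n * F⁻¹)) * w (n + 1) := by rw [← ih]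
      have e2 : w (n + 1) = F * w n * F⁻¹ := by
        simp only [hw]
        rw [pow_succ' F n]
        group
      rw [e1, e2, Sns n]
      group
  have S_rel : S * F = v * F * S := by
    apply Homeomorph.ext
    intro z
    show S (F z) = v (F (S z))
    obtain ⟨n, hn⟩ := hex z
    have h1 : ‖F z‖ < R ^ (n + 1) := by
      rw [hF, dil_apply, norm_mul, Complex.norm_real, Real.norm_eq_abs, abs_of_pos hR0, pow_succ']
      exact mul_lt_mul_of_pos_left hn hR0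
    rw [(hS (n + 1) _ h1).1, (hS n z hn).1, Sn_rel]
    show v (F (Sn n (F⁻¹ (F z)))) = _
    congr 3
    exact F.symm_apply_apply z
  -- membership in Lamp
  have c_lamp : c ∈ d.Lamp := d.c_mem_Lamp
  have k_mem : k ∈ d.Γ₀ := d.k_mem
  have F_mem : F ∈ d.Γ₀ := d.F_mem
  have v_lamp : v ∈ d.Lamp := d.Lamp.mul_mem c_lamp (d.Lamp_conj k_mem (d.Lamp.inv_mem c_lamp))
  have w_lamp : ∀ n, w n ∈ d.Lamp := fun n => d.Lamp_conj (d.Γ₀.pow_mem F_mem n) v_lamp
  have Sn_lamp : ∀ n, Sn n ∈ d.Lamp := by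
    intro n
    induction n with
    | zero => exact d.Lamp.one_mem
    | succ n ih => exact d.Lamp.mul_mem ih (w_lamp n)
  have S_lamp : S ∈ d.Lamp := by
    refine ⟨fun γ hγ => ?_, fun x hx => ?_⟩
    · have hcomp : IsCompact (γ '' (Metric.closedBall (0 : ℂ) 2)) :=
        (isCompact_closedBall _ _).image γ.continuous
      obtain ⟨C, hC⟩ := hcomp.isBounded.exists_norm_le
      obtain ⟨n, hn⟩ := pow_unbounded_of_one_lt C hR1
      obtain ⟨m, hm⟩ := (Sn_lamp n).1 γ hγ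
      refine ⟨m, fun x hx => ?_⟩
      rw [← hm x hx]
      show S (γ x) = Sn n (γ x)
      apply (hS n _ _).1
      refine lt_of_le_of_lt (hC _ ⟨x, ?_, rfl⟩) hn
      rw [mem_closedBall_zero_iff]
      have : ‖x‖ ≤ 2 * R ^ (0 : ℤ) := hx.1
      simpa using this
    · obtain ⟨n, hn⟩ := hex x
      have h1 := (Sn_lamp n).2 x hx
      show S x = x
      rw [(hS n x hn).1]
      exact h1
  -- the group
  have hΓ : d.Γ₀ ≤ Good := by
    refine sup_le ?_ ?_
    · rw [Subgroup.zpowers_le]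
      exact hFg
    · unfold Data.Kall
      rw [Subgroup.closure_le]
      rintro _ ⟨n, rfl⟩
      exact Good.mul_mem (Good.mul_mem (Good.zpow_mem hFg n) hkg) (Good.inv_mem (Good.zpow_mem hFg n))
  refine ⟨d.Γ₀ ⊔ (d.Lamp ⊓ Good), d.big_am Good hΓ, fun g hg => ?_, ?_⟩
  · exact (sup_le hΓ inf_le_right : d.Γ₀ ⊔ (d.Lamp ⊓ Good) ≤ Good) hg
  intro A hA β hβ
  let G := d.Γ₀ ⊔ (d.Lamp ⊓ Good)
  let gF : G := ⟨F, (le_sup_left : d.Γ₀ ≤ G) F_mem⟩
  let gk : G := ⟨k, (le_sup_left : d.Γ₀ ≤ G) k_mem⟩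
  let gc : G := ⟨c, (le_sup_right : d.Lamp ⊓ Good ≤ G) ⟨c_lamp, hcg⟩⟩
  let gS : G := ⟨S, (le_sup_right : d.Lamp ⊓ Good ≤ G) ⟨S_lamp, hSg⟩⟩
  let B : G → ℂ × ℂ → ℝ := fun g p => A g p - β g
  have hB : ∀ (g h : G) (x y : ℂ), x ≠ y →
      B (g * h) (x, y) = B g ((h : ℂ ≃ₜ ℂ) x, (h : ℂ ≃ₜ ℂ) y) + B h (x, y) := by
    intro g h x y hxy
    have := hβ g h x y hxy
    simp only [B]
    linarith
  have hB1 : ∀ x y : ℂ, x ≠ y → B 1 (x, y) = 0 := by
    intro x y hxy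
    have := hB 1 1 x y hxy
    rw [mul_one] at this
    have h2 : B 1 (((1 : G) : ℂ ≃ₜ ℂ) x, ((1 : G) : ℂ ≃ₜ ℂ) y) = B 1 (x, y) := rfl
    rw [h2] at this
    linarith
  have hBinv : ∀ (g : G) (x y : ℂ), x ≠ y →
      B g⁻¹ ((g : ℂ ≃ₜ ℂ) x, (g : ℂ ≃ₜ ℂ) y) = - B g (x, y) := by
    intro g x y hxy
    have := hB g⁻¹ g x y hxy
    rw [inv_mul_cancel, hB1 x y hxy] at this
    linarith
  have hrel : gS * gF = gc * (gk * gc⁻¹ * gk⁻¹) * gF * gS := by
    apply Subtype.ext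
    exact S_rel
  -- a pair of points near the origin
  obtain ⟨x, hx0, hx⟩ : ∃ x : ℂ, x ≠ 0 ∧ ‖F x‖ < 1 := by
    refine ⟨((1 / (2 * R) : ℝ) : ℂ), ?_, ?_⟩
    · have : (1 / (2 * R) : ℝ) ≠ 0 := by positivity
      exact_mod_cast this
    · rw [hF, dil_apply, ← Complex.ofReal_mul, Complex.norm_real, Real.norm_eq_abs, abs_of_pos (by positivity)]
      field_simp
      norm_num
  have hFx : ‖x‖ < 1 := by
    have h1 : ‖F x‖ = R * ‖x‖ := by
      rw [hF, dil_apply, norm_mul, Complex.norm_real, Real.norm_eq_abs, abs_of_pos hR0]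
    rw [h1] at hx
    nlinarith [norm_nonneg x]
  have hF0 : F 0 = 0 := by
    rw [hF, dil_apply, mul_zero]
  have hn0 : ‖(0 : ℂ)‖ < 1 := by simp
  have hFne : F x ≠ F 0 := fun e => hx0 (F.injective e)
  have hF0n : ‖F 0‖ < 1 := by rw [hF0]; exact hn0
  have e1 := hB gS gF x 0 hx0
  have e2 : B (gS * gF) (x, 0) = B (gc * (gk * gc⁻¹ * gk⁻¹) * gF * gS) (x, 0) := by rw [hrel]
  have Sx : S x = x := S_in x hFx
  have S0 : S 0 = 0 := S_in 0 hn0
  have e3 : B (gc * (gk * gc⁻¹ * gk⁻¹) * gF * gS) (x, 0)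
      = B (gc * (gk * gc⁻¹ * gk⁻¹) * gF) (S x, S 0) + B gS (x, 0) := hB _ _ x 0 hx0
  rw [Sx, S0] at e3
  have e4 : B (gc * (gk * gc⁻¹ * gk⁻¹) * gF) (x, 0)
      = B (gc * (gk * gc⁻¹ * gk⁻¹)) (F x, F 0) + B gF (x, 0) := hB _ _ x 0 hx0
  have e5 : B (gc * (gk * gc⁻¹ * gk⁻¹)) (F x, F 0)
      = B gc ((k * c⁻¹ * k⁻¹) (F x), (k * c⁻¹ * k⁻¹) (F 0)) + B (gk * gc⁻¹ * gk⁻¹) (F x, F 0) :=
    hB _ _ _ _ hFne
  set u := k⁻¹ (F x) with hu
  set u' := k⁻¹ (F 0) with hu'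
  have huu : u ≠ u' := fun e => hFne (k.symm.injective e)
  have hku : k u = F x := k.apply_symm_apply _
  have hku' : k u' = F 0 := k.apply_symm_apply _
  have hcu : c⁻¹ u = u := cinv_out _ (kinv _ hx.le)
  have hcu' : c⁻¹ u' = u' := cinv_out _ (kinv _ hF0n.le)
  have t1 : (k * c⁻¹ * k⁻¹) (F x) = F x := by
    show k (c⁻¹ u) = F x
    rw [hcu, hku]
  have t2 : (k * c⁻¹ * k⁻¹) (F 0) = F 0 := by
    show k (c⁻¹ u') = F 0
    rw [hcu', hku']
  rw [t1, t2] at e5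
  have e6 : B (gk * gc⁻¹ * gk⁻¹) (F x, F 0) = B (gk * gc⁻¹) (u, u') + B gk⁻¹ (F x, F 0) :=
    hB _ _ _ _ hFne
  have e7 : B (gk * gc⁻¹) (u, u') = B gk (c⁻¹ u, c⁻¹ u') + B gc⁻¹ (u, u') := hB _ _ _ _ huu
  rw [hcu, hcu'] at e7
  have e8 : B gk⁻¹ (k u, k u') = - B gk (u, u') := hBinv gk u u' huu
  rw [hku, hku'] at e8
  have hcu2 : c u = u := by
    conv_lhs => rw [← hcu]
    exact c.apply_symm_apply u
  have hcu2' : c u' = u' := by
    conv_lhs => rw [← hcu']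
    exact c.apply_symm_apply u'
  have e9 : B gc⁻¹ (c u, c u') = - B gc (u, u') := hBinv gc u u' huu
  rw [hcu2, hcu2'] at e9
  -- compare with the explicit angle functions
  obtain ⟨mS, hmS⟩ := (hA gS).unique S.injective hAS
  obtain ⟨mc, hmc⟩ := (hA gc).unique c.injective hAc
  have f1 : A gS (F x, F 0) = mS := by
    rw [hmS _ _ hFne, hAS0 _ _ hFne hx hF0n, zero_add]
  have f2 : A gS (x, 0) = mS := by
    rw [hmS _ _ hx0, hAS0 _ _ hx0 hFx hn0, zero_add]
  have f3 : A gc (F x, F 0) = mc := by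
    rw [hmc _ _ hFne, hAc0 _ _ hFne hx.le hF0n.le, zero_add]
  have f4 : A gc (u, u') = 1 + mc := by
    rw [hmc _ _ huu, hAc1 _ _ huu (kinv _ hx.le) (kinv _ hF0n.le)]
  have e1' : B (gS * gF) (x, 0) = B gS (F x, F 0) + B gF (x, 0) := e1
  simp only [B] at e1' e2 e3 e4 e5 e6 e7 e8 e9
  rw [f1] at e1'
  rw [f2] at e3
  rw [f3] at e5
  rw [f4] at e9
  linarith

end Pool.Agent.Helper28.Euler
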