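import Pool.Agent.Helper28.Euler.Amenable

namespace Pool.Agent.Helper28.Euler

/-- The combinatorial data: a group `P` acting on `X`, an expanding element `F`, nested sets
`E n ⊆ D n ⊆ E (n+1)`, a displacing element `k`, a lamp `c` supported in `D 0 \ E 0`. -/
structure Data (P X : Type*) [Group P] [MulAction P X] where
  F : P
  k : P
  c : P
  E : ℤ → Set X
  D : ℤ → Set X
  FE : ∀ n x, F • x ∈ E (n + 1) ↔ x ∈ E n
  FD : ∀ n x, F • x ∈ D (n + 1) ↔ x ∈ D n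
  ED : ∀ n, E n ⊆ D n
  DE : ∀ n, D n ⊆ E (n + 1)
  ksupp : ∀ x, x ∉ E 1 → k • x = x
  kdisp : ∀ j : ℤ, j ≠ 0 → ∀ x ∈ D 0, k ^ j • x ∉ D 0
  csupp : ∀ x, x ∉ D 0 \ E 0 → c • x = x

variable {P X : Type*} [Group P] [MulAction P X]

/-- elements fixing every point outside `V` -/
def fixOut (V : Set X) : Subgroup P where
  carrier := {g | ∀ x, x ∉ V → g • x = x}
  mul_mem' := by
    intro a b ha hb x hx
    rw [mul_smul, hb x hx, ha x hx]
  one_mem' := fun x _ => one_smul _ _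
  inv_mem' := by
    intro a ha x hx
    rw [inv_smul_eq_iff]
    exact (ha x hx).symm

theorem mem_fixOut {V : Set X} {g : P} : g ∈ (fixOut V : Subgroup P) ↔ ∀ x, x ∉ V → g • x = x :=
  Iff.rfl

theorem smul_mem_of_fixOut {V : Set X} {g : P} (hg : g ∈ (fixOut V : Subgroup P)) {x : X} :
    g • x ∈ V ↔ x ∈ V := by
  constructor
  · intro h
    by_contra hx
    rw [hg x hx] at h
    exact hx h
  · intro h
    by_contra hx
    have h2 := (fixOut V : Subgroup P).inv_mem hg _ hx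
    rw [inv_smul_smul] at h2
    rw [← h2] at hx
    exact hx h

theorem commute_of_disp [FaithfulSMul P X] {V : Set X} {x y s : P}
    (hx : x ∈ (fixOut V : Subgroup P)) (hy : y ∈ (fixOut V : Subgroup P))
    (hs : ∀ p ∈ V, s • p ∉ V) : (s * x * s⁻¹) * y = y * (s * x * s⁻¹) := by
  apply eq_of_smul_eq_smul (α := X)
  intro p
  have hfix : ∀ q ∈ V, (s * x * s⁻¹) • q = q := by
    intro q hq
    have h1 : s⁻¹ • q ∉ V := by
      intro h
      have := hs _ h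
      rw [smul_inv_smul] at this
      exact this hq
    rw [mul_smul, mul_smul, hx _ h1, smul_inv_smul]
  by_cases hp : p ∈ V
  · rw [mul_smul _ y, mul_smul y, hfix p hp, hfix _ ((smul_mem_of_fixOut hy).2 hp)]
  · rw [mul_smul _ y, mul_smul y, hy p hp]
    have h2 : (s * x * s⁻¹) • p ∉ V := by
      rw [mul_smul, mul_smul]
      by_cases h3 : s⁻¹ • p ∈ V
      · exact hs _ ((smul_mem_of_fixOut hx).2 h3)
      · rw [hx _ h3, smul_inv_smul]
        exact hp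
    exact (hy _ h2).symm

namespace Data

variable (d : Data P X)

theorem FnE (m : ℤ) (n : ℤ) (x : X) : d.F ^ m • x ∈ d.E (n + m) ↔ x ∈ d.E n := by
  induction m using Int.induction_on generalizing n x with
  | zero => simp
  | succ i ih =>
    rw [zpow_add_one, mul_smul]
    have h1 := ih (n + 1) (d.F • x)
    have h2 : n + ((i : ℤ) + 1) = (n + 1) + i := by ring
    rw [h2, h1, d.FE]
  | pred i ih =>
    rw [zpow_sub_one, mul_smul]
    have h1 := ih (n - 1) (d.F⁻¹ • x)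
    have h2 : n + (-(i : ℤ) - 1) = (n - 1) + -i := by ring
    rw [h2, h1, ← d.FE (n - 1), smul_inv_smul]
    simp

theorem FnD (m : ℤ) (n : ℤ) (x : X) : d.F ^ m • x ∈ d.D (n + m) ↔ x ∈ d.D n := by
  induction m using Int.induction_on generalizing n x with
  | zero => simp
  | succ i ih =>
    rw [zpow_add_one, mul_smul]
    have h1 := ih (n + 1) (d.F • x)
    have h2 : n + ((i : ℤ) + 1) = (n + 1) + i := by ring
    rw [h2, h1, d.FD]
  | pred i ih =>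
    rw [zpow_sub_one, mul_smul]
    have h1 := ih (n - 1) (d.F⁻¹ • x)
    have h2 : n + (-(i : ℤ) - 1) = (n - 1) + -i := by ring
    rw [h2, h1, ← d.FD (n - 1), smul_inv_smul]
    simp

theorem E_mono : Monotone d.E := by
  apply monotone_int_of_le_succ
  intro n
  exact (d.ED n).trans (d.DE n)

theorem D_sub_E {m n : ℤ} (h : m < n) : d.D m ⊆ d.E n := by
  refine (d.DE m).trans (d.E_mono (by omega))

/-- the conjugate `F^n k F^(-n)` -/
def kk (n : ℤ) : P := d.F ^ n * d.k * (d.F ^ n)⁻¹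

theorem kk_zpow (n j : ℤ) : d.kk n ^ j = d.F ^ n * d.k ^ j * (d.F ^ n)⁻¹ := by
  unfold kk
  rw [conj_zpow]

theorem kk_supp (n : ℤ) : d.kk n ∈ (fixOut (d.E (n + 1)) : Subgroup P) := by
  intro x hx
  have h1 : (d.F ^ n)⁻¹ • x ∉ d.E 1 := by
    intro h
    apply hx
    have := (d.FnE n 1 ((d.F ^ n)⁻¹ • x)).2 h
    rw [smul_inv_smul] at this
    rwa [add_comm]
  unfold kk
  rw [mul_smul, mul_smul, d.ksupp _ h1, smul_inv_smul]

theorem kk_disp (n j : ℤ) (hj : j ≠ 0) (x : X) (hx : x ∈ d.D n) : d.kk n ^ j • x ∉ d.D n := by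
  rw [kk_zpow, mul_smul, mul_smul]
  have h1 : (d.F ^ n)⁻¹ • x ∈ d.D 0 := by
    rw [← d.FnD n 0, smul_inv_smul, zero_add]
    exact hx
  have h2 := d.kdisp j hj _ h1
  intro h3
  apply h2
  rw [← d.FnD n 0, zero_add]
  exact h3

theorem kk_zpow_smul_supp (n j : ℤ) : d.kk n ^ j ∈ (fixOut (d.E (n + 1)) : Subgroup P) :=
  (fixOut _).zpow_mem (d.kk_supp n) j

/-- the subgroup generated by `kk i`, `m ≤ i < M` -/
def K (m M : ℤ) : Subgroup P := Subgroup.closure {g | ∃ i, m ≤ i ∧ i < M ∧ g = d.kk i}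

theorem K_supp (m M : ℤ) : d.K m M ≤ fixOut (d.E M) := by
  unfold K
  rw [Subgroup.closure_le]
  rintro g ⟨i, _, hi, rfl⟩ x hx
  exact d.kk_supp i x (fun h => hx (d.E_mono (by omega) h))

theorem K_empty (m : ℤ) : d.K m m = ⊥ := by
  unfold K
  rw [Subgroup.closure_eq_bot_iff]
  rintro g ⟨i, h1, h2, _⟩
  omega

theorem K_succ (m M : ℤ) (h : m ≤ M) : d.K m (M + 1) = Subgroup.zpowers (d.kk M) ⊔ d.K m M := by
  apply le_antisymm
  · unfold K
    rw [Subgroup.closure_le]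
    rintro g ⟨i, h1, h2, rfl⟩
    by_cases hi : i = M
    · subst hi
      exact (le_sup_left : Subgroup.zpowers (d.kk i) ≤ _) (Subgroup.mem_zpowers _)
    · exact (le_sup_right : Subgroup.closure _ ≤ _) (Subgroup.subset_closure ⟨i, h1, by omega, rfl⟩)
  · refine sup_le ?_ ?_
    · rw [Subgroup.zpowers_le]
      exact Subgroup.subset_closure ⟨M, h, by omega, rfl⟩
    · exact Subgroup.closure_mono (fun g ⟨i, h1, h2, h3⟩ => ⟨i, h1, by omega, h3⟩)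

theorem K_mono {m m' M M' : ℤ} (h1 : m' ≤ m) (h2 : M ≤ M') : d.K m M ≤ d.K m' M' :=
  Subgroup.closure_mono (fun _ ⟨i, h3, h4, h5⟩ => ⟨i, by omega, by omega, h5⟩)

theorem K_am [FaithfulSMul P X] (m : ℤ) (n : ℕ) : Am (d.K m (m + n)) := by
  induction n with
  | zero =>
    rw [Nat.cast_zero, add_zero, K_empty]
    exact Am.bot
  | succ n ih =>
    have h1 : (m + ((n + 1 : ℕ) : ℤ)) = (m + n) + 1 := by push_cast; ring
    rw [h1, K_succ _ _ _ (by omega)]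
    apply ih.displace
    intro j hj x hx y hy
    apply commute_of_disp (V := d.E (m + n)) (d.K_supp _ _ hx) (d.K_supp _ _ hy)
    intro p hp hp2
    exact d.kk_disp _ j hj p (d.ED _ hp) (d.ED _ hp2)

/-- the subgroup generated by all `kk i` -/
def Kall : Subgroup P := Subgroup.closure (Set.range d.kk)

theorem Kall_eq : d.Kall = ⨆ n : ℕ, d.K (-n) n := by
  apply le_antisymm
  · unfold Kall
    rw [Subgroup.closure_le]
    rintro _ ⟨i, rfl⟩
    refine (le_iSup (fun n : ℕ => d.K (-n) n) (i.natAbs + 1)) ?_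
    exact Subgroup.subset_closure ⟨i, by omega, by omega, rfl⟩
  · refine iSup_le (fun n => Subgroup.closure_mono ?_)
    rintro g ⟨i, _, _, rfl⟩
    exact ⟨i, rfl⟩

theorem Kn_mono : Monotone (fun n : ℕ => d.K (-n) n) := by
  intro a b hab
  exact d.K_mono (by omega) (by omega)

theorem mem_Kall {g : P} (hg : g ∈ d.Kall) : ∃ (m : ℤ) (n : ℕ), g ∈ d.K m (m + n) := by
  rw [Kall_eq] at hg
  obtain ⟨n, hn⟩ := (Subgroup.mem_iSup_of_directed d.Kn_mono.directed_le).1 hg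
  refine ⟨-n, 2 * n, ?_⟩
  have : (-(n : ℤ) + ((2 * n : ℕ) : ℤ)) = n := by push_cast; ring
  rw [this]
  exact hn

theorem Kall_am [FaithfulSMul P X] : Am d.Kall := by
  rw [Kall_eq]
  refine Am.iSup _ d.Kn_mono (fun n => ?_)
  have := d.K_am (-n) (2 * n)
  have h2 : (-(n : ℤ) + ((2 * n : ℕ) : ℤ)) = n := by push_cast; ring
  rwa [h2] at this

theorem conj_kk (m n : ℤ) : d.F ^ m * d.kk n * (d.F ^ m)⁻¹ = d.kk (m + n) := by
  unfold kk
  rw [zpow_add]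
  group

theorem Kall_conj (m : ℤ) {g : P} (hg : g ∈ d.Kall) : d.F ^ m * g * (d.F ^ m)⁻¹ ∈ d.Kall := by
  have hle : d.Kall ≤ d.Kall.comap (MulAut.conj (d.F ^ m)).toMonoidHom := by
    unfold Kall
    rw [Subgroup.closure_le]
    rintro _ ⟨i, rfl⟩
    show d.F ^ m * d.kk i * (d.F ^ m)⁻¹ ∈ Subgroup.closure (Set.range d.kk)
    rw [conj_kk]
    exact Subgroup.subset_closure ⟨_, rfl⟩
  exact hle hg

/-- the amenable base group -/
def Γ₀ : Subgroup P := Subgroup.zpowers d.F ⊔ d.Kall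

theorem Γ₀_am [FaithfulSMul P X] : Am d.Γ₀ := by
  refine (Am.zpowers _).sup d.Kall_am ?_
  rintro _ ⟨m, rfl⟩ b hb
  have := d.Kall_conj (-m) hb
  simpa using this

theorem F_mem : d.F ∈ d.Γ₀ :=
  (le_sup_left : Subgroup.zpowers d.F ≤ _) (Subgroup.mem_zpowers _)

theorem Fz_mem (n : ℤ) : d.F ^ n ∈ d.Γ₀ := d.Γ₀.zpow_mem d.F_mem n

theorem k_mem : d.k ∈ d.Γ₀ := by
  refine (le_sup_right : d.Kall ≤ _) (Subgroup.subset_closure ⟨0, ?_⟩)
  simp [kk]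

theorem mem_Γ₀ {g : P} (hg : g ∈ d.Γ₀) : ∃ (p : ℤ), ∃ κ ∈ d.Kall, g = d.F ^ p * κ := by
  have h1 : d.Γ₀ = Subgroup.closure ((Subgroup.zpowers d.F : Set P) ∪ d.Kall) := by
    rw [Subgroup.closure_union, Subgroup.closure_eq, Subgroup.closure_eq, Γ₀]
  rw [h1] at hg
  induction hg using Subgroup.closure_induction with
  | mem x hx =>
    rcases hx with ⟨p, rfl⟩ | hx
    · exact ⟨p, 1, d.Kall.one_mem, by simp⟩
    · exact ⟨0, x, hx, by simp⟩
  | one => exact ⟨0, 1, d.Kall.one_mem, by simp⟩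
  | mul x y _ _ hx hy =>
    obtain ⟨p, κ, hκ, rfl⟩ := hx
    obtain ⟨q, κ', hκ', rfl⟩ := hy
    refine ⟨p + q, (d.F ^ (-q) * κ * (d.F ^ (-q))⁻¹) * κ', d.Kall.mul_mem (d.Kall_conj _ hκ) hκ', ?_⟩
    rw [zpow_add, zpow_neg]
    group
  | inv x _ hx =>
    obtain ⟨p, κ, hκ, rfl⟩ := hx
    refine ⟨-p, d.F ^ p * κ⁻¹ * (d.F ^ p)⁻¹, d.Kall_conj _ (d.Kall.inv_mem hκ), ?_⟩
    rw [zpow_neg]
    group

/-- structure of the elements of `K m (M+1)` on the translates of `D M` -/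
theorem K_struct (m M : ℤ) (h : m ≤ M) {κ : P} (hκ : κ ∈ d.K m (M + 1)) :
    ∃ j : ℤ, ∀ i : ℤ, ∃ κ' ∈ d.K m M, ∀ x ∈ d.D M, κ • (d.kk M ^ i • x) = d.kk M ^ (i + j) • (κ' • x) := by
  have hD : ∀ κ' ∈ d.K m M, ∀ x ∈ d.D M, κ' • x ∈ d.D M := by
    intro κ' hκ' x hx
    by_cases hxE : x ∈ d.E M
    · exact d.ED _ ((smul_mem_of_fixOut (d.K_supp _ _ hκ')).2 hxE)
    · rw [d.K_supp _ _ hκ' x hxE]
      exact hx
  rw [K_succ _ _ _ h] at hκ
  have h1 : Subgroup.zpowers (d.kk M) ⊔ d.K m M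
      = Subgroup.closure ({d.kk M} ∪ (d.K m M : Set P)) := by
    rw [Subgroup.closure_union, Subgroup.closure_eq, Subgroup.zpowers_eq_closure]
  rw [h1] at hκ
  induction hκ using Subgroup.closure_induction with
  | mem g hg =>
    rcases hg with hg | hg
    · rw [Set.mem_singleton_iff] at hg
      subst hg
      refine ⟨1, fun i => ⟨1, (d.K m M).one_mem, fun x _ => ?_⟩⟩
      rw [one_smul, ← mul_smul, zpow_add, zpow_one]
      congr 1
      rw [← zpow_one_add, ← zpow_add_one, add_comm]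
    · refine ⟨0, fun i => ?_⟩
      by_cases hi : i = 0
      · subst hi
        exact ⟨g, hg, fun x _ => by simp⟩
      · refine ⟨1, (d.K m M).one_mem, fun x hx => ?_⟩
        rw [one_smul, add_zero]
        exact d.K_supp _ _ hg _ (fun hE => d.kk_disp M i hi x hx (d.ED _ hE))
  | one => exact ⟨0, fun i => ⟨1, (d.K m M).one_mem, fun x _ => by simp⟩⟩
  | mul a b _ _ ha hb =>
    obtain ⟨ja, ha⟩ := ha
    obtain ⟨jb, hb⟩ := hb
    refine ⟨jb + ja, fun i => ?_⟩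
    obtain ⟨κb, hκb, hb⟩ := hb i
    obtain ⟨κa, hκa, ha⟩ := ha (i + jb)
    refine ⟨κa * κb, (d.K m M).mul_mem hκa hκb, fun x hx => ?_⟩
    rw [mul_smul, hb x hx, ha _ (hD _ hκb x hx), mul_smul, add_assoc]
  | inv a _ ha =>
    obtain ⟨j, ha⟩ := ha
    refine ⟨-j, fun i => ?_⟩
    obtain ⟨κa, hκa, ha⟩ := ha (i - j)
    refine ⟨κa⁻¹, (d.K m M).inv_mem hκa, fun x hx => ?_⟩
    have h2 := ha (κa⁻¹ • x) (hD _ ((d.K m M).inv_mem hκa) x hx)
    rw [smul_inv_smul, sub_add_cancel] at h2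
    rw [← h2, inv_smul_smul, ← sub_eq_add_neg]

theorem K_dich (m M : ℤ) (h : m ≤ M) {κ : P} (hκ : κ ∈ d.K m (M + 1)) :
    (∀ x ∈ d.D M, κ • x ∉ d.D M) ∨ ∃ κ' ∈ d.K m M, ∀ x ∈ d.D M, κ • x = κ' • x := by
  obtain ⟨j, hj⟩ := d.K_struct m M h hκ
  obtain ⟨κ', hκ', h2⟩ := hj 0
  simp only [zpow_zero, one_smul, zero_add] at h2
  by_cases hj0 : j = 0
  · right
    subst hj0
    simp only [zpow_zero, one_smul] at h2
    exact ⟨κ', hκ', h2⟩
  · left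
    intro x hx
    rw [h2 x hx]
    apply d.kk_disp M j hj0
    by_cases hxE : x ∈ d.E M
    · exact d.ED _ ((smul_mem_of_fixOut (d.K_supp _ _ hκ')).2 hxE)
    · rw [d.K_supp _ _ hκ' x hxE]
      exact hx

theorem K_annulus (m : ℤ) (n : ℕ) (p : ℤ) (hp : 0 ≤ p) : ∀ κ ∈ d.K m (m + n),
    ∀ x ∈ d.D 0 \ d.E 0, κ • x ∈ d.D p \ d.E p → p = 0 ∧ ∀ y ∈ d.D 0 \ d.E 0, κ • y = y := by
  have base : ∀ M : ℤ, M ≤ p → ∀ κ ∈ (fixOut (d.E M) : Subgroup P),
      ∀ x ∈ d.D 0 \ d.E 0, κ • x ∈ d.D p \ d.E p →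
      p = 0 ∧ ∀ y ∈ d.D 0 \ d.E 0, κ • y = y := by
    intro M hM κ hκ x hx hxp
    have h1 : κ • x ∉ d.E M := fun h => hxp.2 (d.E_mono hM h)
    have h2 : x ∉ d.E M := fun h => h1 ((smul_mem_of_fixOut hκ).2 h)
    rw [hκ x h2] at hxp
    have hp0 : p = 0 := by
      by_contra hne
      exact hxp.2 (d.D_sub_E (by omega) hx.1)
    refine ⟨hp0, fun y hy => hκ y (fun h => hy.2 (d.E_mono (by omega) h))⟩
  induction n with
  | zero =>
    intro κ hκ x hx hxp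
    rw [Nat.cast_zero, add_zero, K_empty, Subgroup.mem_bot] at hκ
    subst hκ
    rw [one_smul] at hxp
    refine ⟨?_, fun y _ => one_smul _ _⟩
    by_contra hne
    exact hxp.2 (d.D_sub_E (by omega) hx.1)
  | succ n ih =>
    intro κ hκ x hx hxp
    have h1 : (m + ((n + 1 : ℕ) : ℤ)) = (m + n) + 1 := by push_cast; ring
    rw [h1] at hκ
    by_cases hMp : m + n + 1 ≤ p
    · exact base _ hMp κ (d.K_supp _ _ hκ) x hx hxp
    have hM : p ≤ m + n := by omega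
    have hsub : ∀ q : ℤ, q ≤ m + n → d.D q ⊆ d.D (m + n) := by
      intro q hq
      rcases lt_or_eq_of_le hq with h | h
      · exact (d.D_sub_E h).trans (d.ED _)
      · rw [h]
    rcases d.K_dich m (m + n) (by omega) hκ with h2 | ⟨κ', hκ', h2⟩
    · exact absurd (hsub p hM hxp.1) (h2 x (hsub 0 (by omega) hx.1))
    · rw [h2 x (hsub 0 (by omega) hx.1)] at hxp
      obtain ⟨h3, h4⟩ := ih κ' hκ' x hx hxp
      refine ⟨h3, fun y hy => ?_⟩
      rw [h2 y (hsub 0 (by omega) hy.1), h4 y hy]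

/-- the key dichotomy: a translate of the annulus is disjoint from it or fixed pointwise -/
theorem dich {γ : P} (hγ : γ ∈ d.Γ₀) {x : X} (hx : x ∈ d.D 0 \ d.E 0)
    (hγx : γ • x ∈ d.D 0 \ d.E 0) : ∀ y ∈ d.D 0 \ d.E 0, γ • y = y := by
  have main : ∀ (p : ℤ), p ≤ 0 → ∀ κ ∈ d.Kall, ∀ x ∈ d.D 0 \ d.E 0,
      (d.F ^ p * κ) • x ∈ d.D 0 \ d.E 0 → p = 0 ∧ ∀ y ∈ d.D 0 \ d.E 0, κ • y = y := by
    intro p hp κ hκ x hx hxp
    rw [mul_smul] at hxp
    have h1 : κ • x ∈ d.D (-p) \ d.E (-p) := by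
      have hD := d.FnD p (-p) (κ • x)
      have hE := d.FnE p (-p) (κ • x)
      rw [neg_add_cancel] at hD hE
      exact ⟨hD.1 hxp.1, fun h => hxp.2 (hE.2 h)⟩
    obtain ⟨m, n, hmn⟩ := d.mem_Kall hκ
    obtain ⟨h2, h3⟩ := d.K_annulus m n (-p) (by omega) κ hmn x hx h1
    exact ⟨by omega, h3⟩
  obtain ⟨p, κ, hκ, rfl⟩ := d.mem_Γ₀ hγ
  rcases le_or_gt p 0 with hp | hp
  · obtain ⟨h1, h2⟩ := main p hp κ hκ x hx hγx
    subst h1
    simpa using h2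
  · exfalso
    have h1 : (d.F ^ p * κ)⁻¹ = d.F ^ (-p) * (d.F ^ p * κ⁻¹ * (d.F ^ p)⁻¹) := by
      rw [zpow_neg]
      group
    have h2 : (d.F ^ (-p) * (d.F ^ p * κ⁻¹ * (d.F ^ p)⁻¹)) • ((d.F ^ p * κ) • x) = x := by
      rw [← h1, inv_smul_smul]
    obtain ⟨h3, _⟩ := main (-p) (by omega) _ (d.Kall_conj p (d.Kall.inv_mem hκ))
      ((d.F ^ p * κ) • x) hγx (by rw [h2]; exact hx)
    omega

theorem c_pres (m : ℤ) {x : X} (hx : x ∈ d.D 0 \ d.E 0) : d.c ^ m • x ∈ d.D 0 \ d.E 0 := by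
  have h1 : d.c ∈ (fixOut (d.D 0 \ d.E 0) : Subgroup P) := d.csupp
  exact (smul_mem_of_fixOut ((fixOut _).zpow_mem h1 m)).2 hx

/-- the group of lamp configurations -/
def Lamp : Subgroup P where
  carrier := {h | (∀ γ ∈ d.Γ₀, ∃ m : ℤ, ∀ x ∈ d.D 0 \ d.E 0, h • (γ • x) = γ • (d.c ^ m • x)) ∧
    ∀ x, (∀ γ ∈ d.Γ₀, γ⁻¹ • x ∉ d.D 0 \ d.E 0) → h • x = x}
  mul_mem' := by
    rintro a b ⟨ha, ha'⟩ ⟨hb, hb'⟩
    refine ⟨fun γ hγ => ?_, fun x hx => ?_⟩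
    · obtain ⟨m, hm⟩ := ha γ hγ
      obtain ⟨n, hn⟩ := hb γ hγ
      refine ⟨m + n, fun x hx => ?_⟩
      rw [mul_smul, hn x hx, hm _ (d.c_pres n hx), zpow_add, mul_smul (d.c ^ m)]
    · rw [mul_smul, hb' x hx, ha' x hx]
  one_mem' := ⟨fun γ _ => ⟨0, fun x _ => by simp⟩, fun x _ => one_smul _ _⟩
  inv_mem' := by
    rintro a ⟨ha, ha'⟩
    refine ⟨fun γ hγ => ?_, fun x hx => ?_⟩
    · obtain ⟨m, hm⟩ := ha γ hγ
      refine ⟨-m, fun x hx => ?_⟩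
      rw [inv_smul_eq_iff, hm _ (d.c_pres (-m) hx), ← mul_smul (d.c ^ m), ← zpow_add]
      simp
    · rw [inv_smul_eq_iff]
      exact (ha' x hx).symm

theorem Lamp_comm [FaithfulSMul P X] {a b : P} (ha : a ∈ d.Lamp) (hb : b ∈ d.Lamp) :
    a * b = b * a := by
  obtain ⟨ha, ha'⟩ := ha
  obtain ⟨hb, hb'⟩ := hb
  apply eq_of_smul_eq_smul (α := X)
  intro p
  by_cases hp : ∀ γ ∈ d.Γ₀, γ⁻¹ • p ∉ d.D 0 \ d.E 0
  · rw [mul_smul, mul_smul, hb' p hp, ha' p hp, hb' p hp]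
  · push Not at hp
    obtain ⟨γ, hγ, hx⟩ := hp
    obtain ⟨m, hm⟩ := ha γ hγ
    obtain ⟨n, hn⟩ := hb γ hγ
    have h1 : p = γ • (γ⁻¹ • p) := by rw [smul_inv_smul]
    rw [h1, mul_smul a, mul_smul b, hn _ hx, hm _ hx, hm _ (d.c_pres n hx), hn _ (d.c_pres m hx),
      ← mul_smul (d.c ^ m), ← mul_smul (d.c ^ n), ← zpow_add, ← zpow_add, add_comm]

theorem Lamp_conj {γ a : P} (hγ : γ ∈ d.Γ₀) (ha : a ∈ d.Lamp) : γ * a * γ⁻¹ ∈ d.Lamp := by
  obtain ⟨ha, ha'⟩ := ha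
  refine ⟨fun δ hδ => ?_, fun x hx => ?_⟩
  · obtain ⟨m, hm⟩ := ha (γ⁻¹ * δ) (d.Γ₀.mul_mem (d.Γ₀.inv_mem hγ) hδ)
    refine ⟨m, fun x hx => ?_⟩
    have := hm x hx
    rw [mul_smul γ⁻¹] at this
    rw [mul_smul, mul_smul, this, mul_smul γ⁻¹, smul_inv_smul]
  · rw [mul_smul, mul_smul, ha' (γ⁻¹ • x), smul_inv_smul]
    intro δ hδ
    have := hx (γ * δ) (d.Γ₀.mul_mem hγ hδ)
    rwa [mul_inv_rev, mul_smul] at this

theorem c_mem_Lamp : d.c ∈ d.Lamp := by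
  refine ⟨fun γ hγ => ?_, fun x hx => ?_⟩
  · by_cases h : ∃ x ∈ d.D 0 \ d.E 0, γ • x ∈ d.D 0 \ d.E 0
    · obtain ⟨x, hx, hγx⟩ := h
      have h1 := d.dich hγ hx hγx
      refine ⟨1, fun y hy => ?_⟩
      rw [h1 y hy, zpow_one]
      have := d.c_pres 1 hy
      rw [zpow_one] at this
      exact (h1 _ this).symm
    · push Not at h
      exact ⟨0, fun y hy => by rw [zpow_zero, one_smul]; exact d.csupp _ (h y hy)⟩
  · apply d.csupp
    have := hx 1 d.Γ₀.one_mem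
    simpa using this

/-- an amenable group containing everything -/
theorem big_am [FaithfulSMul P X] (Q : Subgroup P) (hQ : d.Γ₀ ≤ Q) :
    Am (d.Γ₀ ⊔ (d.Lamp ⊓ Q)) := by
  refine d.Γ₀_am.sup (Am.of_commute _ (fun x hx y hy => d.Lamp_comm hx.1 hy.1)) ?_
  intro a ha b hb
  refine ⟨?_, Q.mul_mem (Q.mul_mem (Q.inv_mem (hQ ha)) hb.2) (hQ ha)⟩
  have := d.Lamp_conj (d.Γ₀.inv_mem ha) hb.1
  rwa [inv_inv] at this

end Data

end Pool.Agent.Helper28.Euler
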