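import Pool.Agent.Helper28.Euler.Good
import Pool.Agent.Helper28.Euler.Wreath

open Filter Topology Set
open scoped ContDiff

namespace Pool.Agent.Helper28.Euler

noncomputable instance homeoAction : MulAction (ℂ ≃ₜ ℂ) ℂ where
  smul h z := h z
  one_smul _ := rfl
  mul_smul _ _ _ := rfl

theorem smul_eq (h : ℂ ≃ₜ ℂ) (z : ℂ) : h • z = h z := rfl

instance : FaithfulSMul (ℂ ≃ₜ ℂ) ℂ where
  eq_of_smul_eq_smul h := Homeomorph.ext h

/-- dilation by `R` -/
noncomputable def dil (R : ℝ) (hR : R ≠ 0) : ℂ ≃ₜ ℂ where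
  toFun z := (R : ℂ) * z
  invFun z := (R : ℂ)⁻¹ * z
  left_inv z := by
    have : (R : ℂ) ≠ 0 := by exact_mod_cast hR
    simp only
    rw [inv_mul_cancel_left₀ this]
  right_inv z := by
    have : (R : ℂ) ≠ 0 := by exact_mod_cast hR
    simp only
    rw [mul_inv_cancel_left₀ this]
  continuous_toFun := by fun_prop
  continuous_invFun := by fun_prop

theorem dil_apply (R : ℝ) (hR : R ≠ 0) (z : ℂ) : dil R hR z = (R : ℂ) * z := rfl

theorem dil_isAngle (R : ℝ) (hR : 0 < R) : IsAngle (dil R hR.ne') (fun _ => 0) := by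
  refine ⟨continuousOn_const, fun x y hxy => ?_⟩
  rw [dil_apply, dil_apply, ← mul_sub, norm_mul, Complex.norm_real, Real.norm_eq_abs,
    abs_of_pos hR]
  have h1 : ((‖x - y‖ : ℝ) : ℂ) ≠ 0 := by
    exact_mod_cast (norm_pos_iff.2 (sub_ne_zero.2 hxy)).ne'
  have h2 : (R : ℂ) ≠ 0 := by exact_mod_cast hR.ne'
  push_cast
  rw [mul_div_mul_left _ _ h2]
  simp

theorem dil_good (R : ℝ) (hR : 0 < R) : IsGood (dil R hR.ne') := by
  refine ⟨?_, ?_, fun z => ?_, _, dil_isAngle R hR⟩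
  · show ContDiff ℝ ∞ (fun z : ℂ => (R : ℂ) * z)
    fun_prop
  · show ContDiff ℝ ∞ (fun z : ℂ => (R : ℂ)⁻¹ * z)
    fun_prop
  · have h1 : fderiv ℝ (dil R hR.ne') z = R • ContinuousLinearMap.id ℝ ℂ := by
      apply HasFDerivAt.fderiv
      have h2 : HasFDerivAt (fun z : ℂ => R • z) (R • ContinuousLinearMap.id ℝ ℂ) z :=
        (hasFDerivAt_id z).const_smul R
      refine h2.congr_of_eventuallyEq (Eventually.of_forall (fun w => ?_))
      rw [dil_apply]
      simp
    rw [h1]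
    have h3 : (R • ContinuousLinearMap.id ℝ ℂ).det = LinearMap.det (R • (LinearMap.id : ℂ →ₗ[ℝ] ℂ)) := rfl
    rw [h3, LinearMap.det_smul, LinearMap.det_id, mul_one]
    positivity

/-- smooth step in the squared modulus: `0` for `‖z‖ ≤ 1`, `1` for `‖z‖ ≥ 2` -/
noncomputable def stp (z : ℂ) : ℝ := Real.smoothTransition ((‖z‖ ^ 2 - 1) / 3)

theorem stp_zero {z : ℂ} (hz : ‖z‖ ≤ 1) : stp z = 0 := by
  apply Real.smoothTransition.zero_of_nonpos
  have : ‖z‖ ^ 2 ≤ 1 := by nlinarith [norm_nonneg z]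
  linarith

theorem stp_one {z : ℂ} (hz : 2 ≤ ‖z‖) : stp z = 1 := by
  apply Real.smoothTransition.one_of_one_le
  have : 4 ≤ ‖z‖ ^ 2 := by nlinarith [norm_nonneg z]
  linarith

theorem stp_contDiff : ContDiff ℝ ∞ stp := by
  unfold stp
  apply Real.smoothTransition.contDiff.comp
  have := contDiff_norm_sq ℝ (E := ℂ) (n := ∞)
  fun_prop

theorem stp_abs_le (z : ℂ) : |stp z| ≤ 1 := by
  unfold stp
  rw [abs_of_nonneg (Real.smoothTransition.nonneg _)]
  exact Real.smoothTransition.le_one _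

theorem stp_lip : ∃ C : ℝ, 0 ≤ C ∧ ∀ x y, |stp x - stp y| ≤ C * ‖x - y‖ := by
  have h1 : HasCompactSupport (fun z => 1 - stp z) := by
    apply HasCompactSupport.of_support_subset_isCompact (isCompact_closedBall (0 : ℂ) 2)
    intro z hz
    rw [mem_closedBall_zero_iff]
    by_contra hcon
    push Not at hcon
    apply hz
    simp only
    rw [stp_one hcon.le, sub_self]
  obtain ⟨C, hC⟩ := ContDiff.lipschitzWith_of_hasCompactSupport (𝕂 := ℝ) h1
    (contDiff_const.sub stp_contDiff) (by simp)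
  refine ⟨C, C.2, fun x y => ?_⟩
  have := hC.dist_le_mul x y
  rw [Real.dist_eq, dist_eq_norm] at this
  have h2 : |stp x - stp y| = |1 - stp x - (1 - stp y)| := by
    rw [abs_sub_comm]
    congr 1
    ring
  rw [h2]
  exact this

/-- the twist by `t` full turns -/
noncomputable def twf (t : ℝ) (z : ℂ) : ℂ := z * Complex.exp ((2 * Real.pi * t * stp z : ℝ) * Complex.I)

theorem norm_twf (t : ℝ) (z : ℂ) : ‖twf t z‖ = ‖z‖ := by
  unfold twf
  rw [norm_mul, Complex.norm_exp_ofReal_mul_I, mul_one]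

theorem stp_twf (t : ℝ) (z : ℂ) : stp (twf t z) = stp z := by
  unfold stp
  rw [norm_twf]

theorem twf_add (s t : ℝ) (z : ℂ) : twf s (twf t z) = twf (s + t) z := by
  have h1 : twf s (twf t z) = twf t z * Complex.exp ((2 * Real.pi * s * stp (twf t z) : ℝ) * Complex.I) := rfl
  rw [h1, stp_twf]
  unfold twf
  rw [mul_assoc, ← Complex.exp_add]
  congr 2
  push_cast
  ring

theorem twf_zero (z : ℂ) : twf 0 z = z := by
  unfold twf
  simp

theorem twf_contDiff (t : ℝ) : ContDiff ℝ ∞ (twf t) := by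
  unfold twf
  apply contDiff_id.mul
  apply ContDiff.cexp
  apply ContDiff.mul _ contDiff_const
  have h1 : ContDiff ℝ ∞ (fun z => 2 * Real.pi * t * stp z) := contDiff_const.mul stp_contDiff
  exact Complex.ofRealCLM.contDiff.comp h1

noncomputable def tw (t : ℝ) : ℂ ≃ₜ ℂ where
  toFun := twf t
  invFun := twf (-t)
  left_inv z := by rw [twf_add, neg_add_cancel, twf_zero]
  right_inv z := by rw [twf_add, add_neg_cancel, twf_zero]
  continuous_toFun := (twf_contDiff t).continuous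
  continuous_invFun := (twf_contDiff (-t)).continuous

theorem tw_apply (t : ℝ) (z : ℂ) : tw t z = twf t z := rfl

theorem tw_add (s t : ℝ) : tw s * tw t = tw (s + t) := by
  apply Homeomorph.ext
  intro z
  exact twf_add s t z

theorem tw_inside (t : ℝ) {z : ℂ} (hz : ‖z‖ ≤ 1) : tw t z = z := by
  rw [tw_apply]
  unfold twf
  rw [stp_zero hz]
  simp

theorem tw_outside (t : ℝ) {z : ℂ} (hz : 2 ≤ ‖z‖) :
    tw t z = z * Complex.exp (2 * Real.pi * t * Complex.I) := by
  rw [tw_apply]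
  unfold twf
  rw [stp_one hz]
  push_cast
  rw [mul_one]

theorem exp_lip (a b : ℝ) : ‖Complex.exp (a * Complex.I) - Complex.exp (b * Complex.I)‖ ≤ |a - b| := by
  have h1 : Complex.exp (a * Complex.I) - Complex.exp (b * Complex.I)
      = Complex.exp (b * Complex.I) * (Complex.exp (((a - b : ℝ) : ℂ) * Complex.I) - 1) := by
    rw [mul_sub, ← Complex.exp_add, mul_one]
    congr 2
    push_cast
    ring
  rw [h1, norm_mul, Complex.norm_exp_ofReal_mul_I, one_mul]
  have := Real.norm_exp_I_mul_ofReal_sub_one_le (x := a - b)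
  rw [Real.norm_eq_abs] at this
  rwa [mul_comm] at this

theorem twf_near : ∃ C : ℝ, 0 ≤ C ∧ ∀ t : ℝ, 0 ≤ t → ∀ x y,
    ‖(twf t x - x) - (twf t y - y)‖ ≤ C * t * ‖x - y‖ := by
  obtain ⟨C, hC0, hC⟩ := stp_lip
  refine ⟨2 * Real.pi * (1 + 2 * C), by positivity, ?_⟩
  have key : ∀ t : ℝ, 0 ≤ t → ∀ x y : ℂ, ‖y‖ ≤ ‖x‖ →
      ‖(twf t x - x) - (twf t y - y)‖ ≤ 2 * Real.pi * (1 + 2 * C) * t * ‖x - y‖ := by
    intro t ht x y hyx
    have h1 : (twf t x - x) - (twf t y - y)
        = (x - y) * (Complex.exp ((2 * Real.pi * t * stp x : ℝ) * Complex.I) - Complex.exp ((0 : ℝ) * Complex.I))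
          + y * (Complex.exp ((2 * Real.pi * t * stp x : ℝ) * Complex.I)
            - Complex.exp ((2 * Real.pi * t * stp y : ℝ) * Complex.I)) := by
      unfold twf
      simp only [Complex.ofReal_zero, zero_mul, Complex.exp_zero]
      ring
    rw [h1]
    refine (norm_add_le _ _).trans ?_
    rw [norm_mul, norm_mul]
    have h2 := exp_lip (2 * Real.pi * t * stp x) 0
    have h3 := exp_lip (2 * Real.pi * t * stp x) (2 * Real.pi * t * stp y)
    have h4 : |2 * Real.pi * t * stp x - 0| ≤ 2 * Real.pi * t := by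
      rw [sub_zero, abs_mul, abs_of_nonneg (by positivity : 0 ≤ 2 * Real.pi * t)]
      calc 2 * Real.pi * t * |stp x| ≤ 2 * Real.pi * t * 1 :=
            mul_le_mul_of_nonneg_left (stp_abs_le x) (by positivity)
        _ = _ := mul_one _
    have h5 : |2 * Real.pi * t * stp x - 2 * Real.pi * t * stp y| = 2 * Real.pi * t * |stp x - stp y| := by
      rw [← mul_sub, abs_mul, abs_of_nonneg (by positivity : 0 ≤ 2 * Real.pi * t)]
    rw [h5] at h3
    have h6 : ‖y‖ * |stp x - stp y| ≤ 2 * (C * ‖x - y‖) := by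
      by_cases hy : 2 ≤ ‖y‖
      · rw [stp_one hy, stp_one (hy.trans hyx), sub_self, abs_zero, mul_zero]
        positivity
      · push Not at hy
        exact mul_le_mul hy.le (hC x y) (abs_nonneg _) (by norm_num)
    calc ‖x - y‖ * ‖Complex.exp ((2 * Real.pi * t * stp x : ℝ) * Complex.I) - Complex.exp ((0 : ℝ) * Complex.I)‖
          + ‖y‖ * ‖Complex.exp ((2 * Real.pi * t * stp x : ℝ) * Complex.I)
            - Complex.exp ((2 * Real.pi * t * stp y : ℝ) * Complex.I)‖
        ≤ ‖x - y‖ * (2 * Real.pi * t) + ‖y‖ * (2 * Real.pi * t * |stp x - stp y|) := by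
          apply add_le_add
          · exact mul_le_mul_of_nonneg_left (h2.trans h4) (norm_nonneg _)
          · exact mul_le_mul_of_nonneg_left h3 (norm_nonneg _)
      _ = ‖x - y‖ * (2 * Real.pi * t) + 2 * Real.pi * t * (‖y‖ * |stp x - stp y|) := by ring
      _ ≤ ‖x - y‖ * (2 * Real.pi * t) + 2 * Real.pi * t * (2 * (C * ‖x - y‖)) := by
          gcongr
      _ = _ := by ring
  intro t ht x y
  rcases le_total ‖y‖ ‖x‖ with h | h
  · exact key t ht x y h
  · have := key t ht y x h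
    rw [norm_sub_rev, norm_sub_rev x y]
    exact this

/-- there is `N` with `tw (1/N)` close to the identity -/
theorem exists_N : ∃ N : ℕ, 2 ≤ N ∧ ∀ x y,
    ‖(tw (1 / N) x - x) - (tw (1 / N) y - y)‖ ≤ (1 / 2) * ‖x - y‖ := by
  obtain ⟨C, hC0, hC⟩ := twf_near
  obtain ⟨N, hN⟩ := exists_nat_ge (2 * C + 2)
  have hN2 : (2 : ℝ) ≤ N := by linarith
  refine ⟨N, by exact_mod_cast hN2, fun x y => ?_⟩
  refine (hC (1 / N) (by positivity) x y).trans ?_
  apply mul_le_mul_of_nonneg_right _ (norm_nonneg _)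
  rw [mul_one_div, div_le_iff₀ (by linarith)]
  linarith

theorem tw_pow (t : ℝ) (n : ℕ) : tw t ^ n = tw (n * t) := by
  induction n with
  | zero =>
    rw [pow_zero, Nat.cast_zero, zero_mul]
    apply Homeomorph.ext
    intro z
    exact (twf_zero z).symm
  | succ n ih =>
    rw [pow_succ, ih, tw_add]
    congr 1
    push_cast
    ring

/-- the full twist has an angle function which is `0` inside and `1` outside -/
theorem tw_one_angle : IsGood (tw 1) ∧ ∃ A, IsAngle (tw 1) A ∧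
    (∀ x y, x ≠ y → ‖x‖ ≤ 1 → ‖y‖ ≤ 1 → A (x, y) = 0) ∧
    (∀ x y, x ≠ y → 2 ≤ ‖x‖ → 2 ≤ ‖y‖ → A (x, y) = 1) := by
  obtain ⟨N, hN, hl⟩ := exists_N
  have hN0 : (N : ℝ) ≠ 0 := by
    have : 0 < N := by omega
    exact_mod_cast this.ne'
  set t : ℝ := 1 / N with ht
  have hgood : IsGood (tw t) := good_of_near (tw t) (twf_contDiff t) (by norm_num) (by norm_num) hl
  have hang : IsAngle (tw t) (nearAngle (tw t)) :=
    nearAngle_isAngle (tw t).continuous (by norm_num) hl
  have key : ∀ n : ℕ, ∃ A, IsAngle ⇑(tw t ^ n) A ∧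
      (∀ x y, x ≠ y → ‖x‖ ≤ 1 → ‖y‖ ≤ 1 → A (x, y) = 0) ∧
      (∀ x y, x ≠ y → 2 ≤ ‖x‖ → 2 ≤ ‖y‖ → A (x, y) = n * t) := by
    intro n
    induction n with
    | zero =>
      exact ⟨fun _ => 0, IsAngle.id, fun _ _ _ _ _ => rfl, fun _ _ _ _ _ => by simp⟩
    | succ n ih =>
      obtain ⟨A, hA, h0, h1⟩ := ih
      refine ⟨_, (hA.comp hang (tw t).continuous (tw t).injective).congr (fun z => ?_), ?_, ?_⟩
      · rw [pow_succ]
        rfl
      · intro x y hxy hx hy
        simp only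
        rw [tw_inside t hx, tw_inside t hy, h0 x y hxy hx hy,
          nearAngle_of_id hxy (tw_inside t hx) (tw_inside t hy), add_zero]
      · intro x y hxy hx hy
        simp only
        have e1 : ‖tw t x‖ = ‖x‖ := norm_twf t x
        have e2 : ‖tw t y‖ = ‖y‖ := norm_twf t y
        rw [h1 _ _ (fun e => hxy ((tw t).injective e)) (by rw [e1]; exact hx) (by rw [e2]; exact hy),
          nearAngle_of_rot hxy t (by positivity) _ (tw_outside t hx) (tw_outside t hy)]
        · push_cast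
          ring
        · rw [ht]
          have : (2 : ℝ) ≤ N := by exact_mod_cast hN
          rw [mul_one_div, div_le_one (by linarith)]
          exact this
  have hone : tw t ^ N = tw 1 := by
    rw [tw_pow, ht, mul_one_div_cancel hN0]
  refine ⟨?_, ?_⟩
  · rw [← hone]
    exact Good.pow_mem hgood N
  · obtain ⟨A, hA, h0, h1⟩ := key N
    rw [hone] at hA
    refine ⟨A, hA, h0, fun x y hxy hx hy => ?_⟩
    rw [h1 x y hxy hx hy, ht, mul_one_div_cancel hN0]

theorem tw_one_supp {z : ℂ} (hz : ¬ (‖z‖ ≤ 2 ∧ 1 ≤ ‖z‖)) : tw 1 z = z := by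
  by_cases h : ‖z‖ ≤ 1
  · exact tw_inside 1 h
  · have h2 : 2 ≤ ‖z‖ := by
      by_contra hcon
      push Not at h hcon
      exact hz ⟨hcon.le, h.le⟩
    rw [tw_outside 1 h2]
    simp

/-- existence of the displacing map -/
theorem exists_k : ∃ (R : ℝ) (_ : 4 ≤ R) (k : ℂ ≃ₜ ℂ), IsGood k ∧ (∀ z, R ≤ ‖z‖ → k z = z) ∧
    (∀ z, z.re ≤ (k z).re) ∧ (∀ z, ‖z‖ ≤ 2 → k z = z + 5) := by
  let β : ContDiffBump (0 : ℂ) := ⟨1 / 2, 1, by norm_num, by norm_num⟩
  obtain ⟨C, hC⟩ := ContDiff.lipschitzWith_of_hasCompactSupport (𝕂 := ℝ) β.hasCompactSupport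
    (β.contDiff (n := ⊤)) (by simp)
  set R : ℝ := 10 * C + 4 with hR
  have hC0 : (0 : ℝ) ≤ C := C.2
  have hR4 : 4 ≤ R := by linarith
  have hR0 : 0 < R := by linarith
  let f : ℂ → ℂ := fun z => z + ((5 * β (z / R) : ℝ) : ℂ)
  have hf : ∀ x y, ‖(f x - x) - (f y - y)‖ ≤ (1 / 2) * ‖x - y‖ := by
    intro x y
    have h1 : (f x - x) - (f y - y) = ((5 * (β (x / R) - β (y / R)) : ℝ) : ℂ) := by
      simp only [f]
      push_cast
      ring
    rw [h1, Complex.norm_real, Real.norm_eq_abs, abs_mul, abs_of_pos (by norm_num : (0 : ℝ) < 5)]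
    have h2 := hC.dist_le_mul (x / R) (y / R)
    rw [Real.dist_eq, dist_eq_norm, ← sub_div, norm_div, Complex.norm_real, Real.norm_eq_abs,
      abs_of_pos hR0] at h2
    calc 5 * |β (x / R) - β (y / R)| ≤ 5 * (C * (‖x - y‖ / R)) := by
          apply mul_le_mul_of_nonneg_left h2 (by norm_num)
      _ = (5 * C / R) * ‖x - y‖ := by ring
      _ ≤ (1 / 2) * ‖x - y‖ := by
          apply mul_le_mul_of_nonneg_right _ (norm_nonneg _)
          rw [div_le_iff₀ hR0]
          linarith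
  have hfs : ContDiff ℝ ∞ f := by
    apply contDiff_id.add
    apply Complex.ofRealCLM.contDiff.comp
    apply contDiff_const.mul
    apply (β.contDiff (n := ⊤)).comp
    show ContDiff ℝ ∞ (fun z : ℂ => z / R)
    fun_prop
  have happ : ApproximatesLinearOn f ((ContinuousLinearEquiv.refl ℝ ℂ : ℂ ≃L[ℝ] ℂ) : ℂ →L[ℝ] ℂ)
      univ (1 / 2 : NNReal) := by
    intro x _ y _
    have := hf x y
    simp only [ContinuousLinearEquiv.coe_refl, ContinuousLinearMap.coe_id', id_eq, NNReal.coe_div,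
      NNReal.coe_one, NNReal.coe_ofNat]
    calc ‖f x - f y - (x - y)‖ = ‖(f x - x) - (f y - y)‖ := by
          congr 1
          ring
      _ ≤ _ := this
  have hN : Subsingleton ℂ ∨ (1 / 2 : NNReal) <
      ‖(((ContinuousLinearEquiv.refl ℝ ℂ : ℂ ≃L[ℝ] ℂ).symm : ℂ ≃L[ℝ] ℂ) : ℂ →L[ℝ] ℂ)‖₊⁻¹ := by
    right
    have : ‖(((ContinuousLinearEquiv.refl ℝ ℂ : ℂ ≃L[ℝ] ℂ).symm : ℂ ≃L[ℝ] ℂ) : ℂ →L[ℝ] ℂ)‖₊ = 1 := by
      rw [ContinuousLinearEquiv.refl_symm, ContinuousLinearEquiv.coe_refl]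
      exact ContinuousLinearMap.nnnorm_id
    rw [this]
    rw [inv_one, ← NNReal.coe_lt_coe]
    norm_num
  let k : ℂ ≃ₜ ℂ := happ.toHomeomorph f hN
  have hk : ∀ z, k z = f z := fun z => rfl
  have hkf : (k : ℂ → ℂ) = f := rfl
  refine ⟨R, hR4, k, ?_, ?_, ?_, ?_⟩
  · exact good_of_near (q := 1 / 2) k (by rw [hkf]; exact hfs) (by norm_num) (by norm_num)
      (by rw [hkf]; exact hf)
  · intro z hz
    rw [hk]
    have h1 : β (z / R) = 0 := by
      apply β.zero_of_le_dist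
      rw [dist_zero_right, norm_div, Complex.norm_real, Real.norm_eq_abs, abs_of_pos hR0,
        le_div_iff₀ hR0]
      simpa [β] using hz
    simp [f, h1]
  · intro z
    rw [hk]
    simp only [f, Complex.add_re, Complex.ofReal_re]
    have := β.nonneg (x := z / R)
    linarith
  · intro z hz
    rw [hk]
    have h1 : β (z / R) = 1 := by
      apply β.one_of_mem_closedBall
      rw [mem_closedBall_zero_iff, norm_div, Complex.norm_real, Real.norm_eq_abs, abs_of_pos hR0,
        div_le_iff₀ hR0]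
      simp only [β]
      linarith
    simp [f, h1]

end Pool.Agent.Helper28.Euler
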